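import Pool.Agent.Pat6.UBaseI
import Pool.Agent.Pat6.UBaseII
import Pool.Agent.Pat6.UBaseIII
import Pool.Agent.Pat6.Extra
import Pool.Agent.Lib.LindemannWeierstrass

/-!
# Pat7: the elements of the base which are algebraic over the field of `π`
-/

set_option autoImplicit false

namespace Pool.Agent.Pat7

open Complex Pool.Agent.Pat5 Pool.Agent.Pat6

theorem tr_pi : Transcendental ℚ (Real.pi : ℂ) :=
  (transcendental_algebraMap_iff (R := ℚ) (S := ℝ) (A := ℂ) (algebraMap ℝ ℂ).injective).2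
    Pool.Agent.Lib.LW.transcendental_pi

private theorem q_alg (q : ℚ) : IsAlgebraic ℚ (q : ℂ) := by
  have h := isAlgebraic_algebraMap (A := ℂ) q
  rwa [eq_ratCast] at h

theorem tr_II (A : ℚ) : Transcendental ℚ ((A - Real.pi : ℝ) : ℂ) := by
  intro h
  apply tr_pi
  have h1 : (Real.pi : ℂ) = (A : ℂ) - ((A - Real.pi : ℝ) : ℂ) := by
    push_cast
    ring
  rw [h1]
  exact (q_alg A).sub h

theorem tr_III {q : ℚ} (hq : 0 < q) : Transcendental ℚ ((q / Real.pi : ℝ) : ℂ) := by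
  intro h
  apply tr_pi
  have hq' : (q : ℂ) ≠ 0 := by exact_mod_cast hq.ne'
  have h1 : (Real.pi : ℂ) = (q : ℂ) * (((q / Real.pi : ℝ) : ℂ))⁻¹ := by
    push_cast
    field_simp
  rw [h1]
  exact (q_alg q).mul h.inv

/-- The numbers `1`, `π`, `1 / π` are linearly independent. -/
theorem li_pi3 : LinearIndependent ℚ ![1, Real.pi, Real.pi⁻¹] := by
  rw [Fintype.linearIndependent_iff]
  intro c hc
  have h1 : (c 0 : ℝ) + c 1 * Real.pi + c 2 * Real.pi⁻¹ = 0 := by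
    rw [Fin.sum_univ_three] at hc
    simpa [Rat.smul_def] using hc
  have hpi := Real.pi_ne_zero
  have h2 : (c 2 : ℝ) + c 0 * Real.pi + c 1 * Real.pi ^ 2 = 0 := by
    field_simp at h1
    linear_combination h1
  by_contra hne
  apply tr_pi
  refine alg_cubic (q_alg (c 2)) (q_alg (c 0)) (q_alg (c 1)) (q_alg 0) ?_
    (x := (Real.pi : ℂ)) ?_
  · by_contra h3
    push Not at h3
    obtain ⟨h3, h4, h5, -⟩ := h3
    apply hne
    intro i
    fin_cases i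
    · exact_mod_cast h4
    · exact_mod_cast h5
    · exact_mod_cast h3
  · have h3 := congrArg (fun x : ℝ => (x : ℂ)) h2
    push_cast at h3
    push_cast
    linear_combination h3

/-- The numbers `1`, `π` are linearly independent. -/
theorem li_pi2 : LinearIndependent ℚ ![1, Real.pi] := by
  have h := li_pi3.comp (![0, 1] : Fin 2 → Fin 3) (by decide)
  convert h using 1
  funext i
  fin_cases i <;> rfl

private theorem fst_mem {ν χ : Type} {e p : ℝ} {v w : ν → ℝ} {X Y : χ → ℝ} {u : ℝ}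
    (hu : u ∈ (baseG e v w X Y).map (LinearMap.fst ℚ ℝ ℝ)) :
    (u : ℂ) ∈ (base e p v w X Y).map (LinearMap.fst ℚ ℂ ℂ) := by
  obtain ⟨a, ha, rfl⟩ := hu
  refine ⟨((a.1 : ℂ), (a.2 : ℂ)), ⟨?_, ?_⟩, rfl⟩
  · rw [ofReal_re, ofReal_re]
    exact ha
  · rw [ofReal_im, ofReal_im]
    exact (baseH p).zero_mem

private theorem form {e p l : ℝ} {K : IntermediateField ℚ ℂ}
    (hK : ∀ x : ℂ, IsAlgebraic ℚ x → x ∈ K) (he : (e : ℂ) ∈ K) (hpK : (p : ℂ) ∈ K)
    (hl : (l : ℂ) ∉ K) {x : ℝ} (hx : (x : ℂ) ∈ K)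
    (hxs : (x : ℂ) ∈ seven (fun _ => (e : ℂ)) p l) :
    ∃ a b f : ℚ, x = a + b * p + f * e := by
  rw [seven] at hxs
  simp only [Submodule.mem_span_insert, Submodule.mem_span_singleton] at hxs
  obtain ⟨a, _, ⟨b, _, ⟨c, _, ⟨d, _, ⟨f, _, ⟨g, _, ⟨k, rfl⟩, rfl⟩, rfl⟩, rfl⟩, rfl⟩, rfl⟩, h⟩ :=
    hxs
  simp only [Rat.smul_def, mul_one] at h
  have hI : I ∈ K := hK _ Complex.isIntegral_rat_I.isAlgebraic
  have hq : ∀ q : ℚ, (q : ℂ) ∈ K := fun q => by
    have h1 := K.algebraMap_mem q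
    rwa [eq_ratCast] at h1
  have h1 : (l : ℂ) * (d + g * e + k * p) = x - a - b * p - c * (p * I) - f * e := by
    rw [h]
    ring
  have h2 : (x : ℂ) - a - b * p - c * (p * I) - f * e ∈ K :=
    sub_mem (sub_mem (sub_mem (sub_mem hx (hq a)) (mul_mem (hq b) hpK))
      (mul_mem (hq c) (mul_mem hpK hI))) (mul_mem (hq f) he)
  have h3 : (d : ℂ) + g * e + k * p = 0 := by
    by_contra hne
    apply hl
    have h4 : (d : ℂ) + g * e + k * p ∈ K :=
      add_mem (add_mem (hq d) (mul_mem (hq g) he)) (mul_mem (hq k) hpK)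
    have h5 : (l : ℂ) = (x - a - b * p - c * (p * I) - f * e) / (d + g * e + k * p) := by
      rw [← h1, mul_div_cancel_right₀ _ hne]
    rw [h5]
    exact div_mem h2 h4
  rw [h3, mul_zero] at h1
  have h6 := congrArg Complex.re h1
  refine ⟨a, b, f, ?_⟩
  simp at h6
  linarith

private theorem mem_two {u : ℝ} {a b : ℚ} (h : u = a + b * Real.pi) :
    u ∈ Submodule.span ℚ (Set.range ![1, Real.pi]) := by
  have h1 : u = a • (1 : ℝ) + b • Real.pi := by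
    rw [Rat.smul_def, Rat.smul_def, mul_one, h]
  rw [h1]
  exact add_mem (Submodule.smul_mem _ _ (Submodule.subset_span ⟨0, rfl⟩))
    (Submodule.smul_mem _ _ (Submodule.subset_span ⟨1, rfl⟩))

theorem dom_I (z : Fin 7 → ℝ) (hz : AlgebraicIndependent ℚ (fun i => (z i : ℂ)))
    (h1 : z 1 = Real.pi) (T : Finset (Fin 3)) (w : {i // i ∈ T} → ℝ)
    (Y : {i // i ∉ T} ⊕ Fin 2 → ℝ) :
    ∀ u ∈ (baseG (z 0) (fun i : {i // i ∈ T} => Pat5.arg (z 0) (z 1) (z 2) i) w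
      (Sum.elim (fun i : {i // i ∉ T} => Pat5.arg (z 0) (z 1) (z 2) i) ![z 2, z 1]) Y).map
        (LinearMap.fst ℚ ℝ ℝ), (u : ℂ) ∈ KS z {1} →
      u ∈ Submodule.span ℚ (Set.range ![1, Real.pi]) := by
  intro u hu huK
  have h2 := fst_mem (p := z 1) hu
  rw [← seven_I (fun _ => (z 0 : ℂ)) _ _ _ rfl] at h2
  obtain ⟨a, b, f, h3⟩ := form (K := KS z {0, 1}) (fun x hx => alg_mem_KS hx)
    (coe_mem_KS z (by simp)) (coe_mem_KS z (by simp)) (not_mem_KS hz (by simp))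
    (KS_mono (by simp) huK) h2
  have hf : f = 0 := by
    by_contra hf
    have hf' : (f : ℂ) ≠ 0 := by exact_mod_cast hf
    refine not_mem_KS hz (A := {1}) (i := 0) (by simp) ?_
    have h4 : (z 0 : ℂ) = (u - a - b * z 1) / f := by
      rw [eq_div_iff hf', h3]
      push_cast
      ring
    rw [h4]
    exact div_mem (sub_mem (sub_mem huK (rat_mem_KS z _ a))
      (mul_mem (rat_mem_KS z _ b) (coe_mem_KS z (Set.mem_singleton 1)))) (rat_mem_KS z _ f)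
  refine mem_two (a := a) (b := b) ?_
  rw [h3, hf, h1]
  push_cast
  ring

private theorem dom_II (z : Fin 4 → ℝ) (A : ℚ)
    (hz : AlgebraicIndependent ℚ (fun i => (z i : ℂ))) (h1 : A - z 0 = Real.pi) {u : ℝ}
    (h2 : (u : ℂ) ∈ seven (fun _ => (z 0 : ℂ)) (A - z 0) (z 1)) (huK : (u : ℂ) ∈ KS z {0}) :
    u ∈ Submodule.span ℚ (Set.range ![1, Real.pi]) := by
  obtain ⟨a, b, f, h3⟩ := form (K := KS z {0}) (fun x hx => alg_mem_KS hx)
    (coe_mem_KS z (by simp)) (by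
      rw [ofReal_sub, ofReal_ratCast]
      exact sub_mem (rat_mem_KS z _ A) (coe_mem_KS z (by simp)))
    (not_mem_KS hz (by simp)) huK h2
  refine mem_two (a := a + f * A) (b := b - f) ?_
  rw [h3, ← h1]
  push_cast
  ring

theorem dom_II_0 (z : Fin 4 → ℝ) (A : ℚ) (hz : AlgebraicIndependent ℚ (fun i => (z i : ℂ)))
    (h1 : A - z 0 = Real.pi) (w : Fin 0 → ℝ) (Y : Fin 3 → ℝ) :
    ∀ u ∈ (baseG (z 0) (![] : Fin 0 → ℝ) w ![z 1, z 0, z 0 * z 1] Y).map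
        (LinearMap.fst ℚ ℝ ℝ), (u : ℂ) ∈ KS z {0} →
      u ∈ Submodule.span ℚ (Set.range ![1, Real.pi]) := by
  intro u hu huK
  have h2 := fst_mem (p := A - z 0) hu
  rw [← seven_II_0 (fun _ => (z 0 : ℂ)) A _ _ rfl] at h2
  exact dom_II z A hz h1 h2 huK

theorem dom_II_2 (z : Fin 4 → ℝ) (A : ℚ) (hz : AlgebraicIndependent ℚ (fun i => (z i : ℂ)))
    (h1 : A - z 0 = Real.pi) (w : Fin 1 → ℝ) (Y : Fin 2 → ℝ) :
    ∀ u ∈ (baseG (z 0) ![z 0 * z 1] w ![z 1, z 0] Y).map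
        (LinearMap.fst ℚ ℝ ℝ), (u : ℂ) ∈ KS z {0} →
      u ∈ Submodule.span ℚ (Set.range ![1, Real.pi]) := by
  intro u hu huK
  have h2 := fst_mem (p := A - z 0) hu
  rw [← seven_II_2 (fun _ => (z 0 : ℂ)) A _ _ rfl] at h2
  exact dom_II z A hz h1 h2 huK

theorem dom_II_4 (z : Fin 4 → ℝ) (A : ℚ) (hz : AlgebraicIndependent ℚ (fun i => (z i : ℂ)))
    (h1 : A - z 0 = Real.pi) (w : Fin 1 → ℝ) (Y : Fin 2 → ℝ) :
    ∀ u ∈ (baseG (z 0) ![(A - z 0) * z 1] w ![z 1, z 0] Y).map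
        (LinearMap.fst ℚ ℝ ℝ), (u : ℂ) ∈ KS z {0} →
      u ∈ Submodule.span ℚ (Set.range ![1, Real.pi]) := by
  intro u hu huK
  have h2 := fst_mem (p := A - z 0) hu
  rw [← seven_II_4 (fun _ => (z 0 : ℂ)) A _ _ rfl] at h2
  exact dom_II z A hz h1 h2 huK

theorem dom_III (z : Fin 6 → ℝ) (hz : AlgebraicIndependent ℚ (fun i => (z i : ℂ)))
    (T : Finset (Fin 3)) (q : ℚ) (hq : 0 < q) (h1 : q / z 0 = Real.pi)
    (w : Option {i // i ∈ T} → ℝ) (Y : {i // i ∉ T} ⊕ Unit → ℝ) :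
    ∀ u ∈ (baseG (z 0) (fun o : Option {i // i ∈ T} => o.elim (z 1 + 1) fun i =>
      Pat5.arg (z 0) (q / z 0) (z 1) i) w
      (Sum.elim (fun i : {i // i ∉ T} => Pat5.arg (z 0) (q / z 0) (z 1) i)
        (fun _ : Unit => q / z 0)) Y).map (LinearMap.fst ℚ ℝ ℝ), (u : ℂ) ∈ KS z {0} →
      u ∈ Submodule.span ℚ (Set.range ![1, Real.pi, Real.pi⁻¹]) := by
  intro u hu huK
  have h2 := fst_mem (p := q / z 0) hu
  rw [← seven_III (fun _ => (z 0 : ℂ)) _ _ _ rfl] at h2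
  obtain ⟨a, b, f, h3⟩ := form (K := KS z {0}) (fun x hx => alg_mem_KS hx)
    (coe_mem_KS z (by simp)) (by
      rw [ofReal_div, ofReal_ratCast]
      exact div_mem (rat_mem_KS z _ q) (coe_mem_KS z (by simp)))
    (not_mem_KS hz (by simp)) huK h2
  have hq' : (q : ℝ) ≠ 0 := by exact_mod_cast hq.ne'
  have h4 : u = a • (1 : ℝ) + b • Real.pi + (f * q) • Real.pi⁻¹ := by
    rw [Rat.smul_def, Rat.smul_def, Rat.smul_def, mul_one, h3, ← h1]
    push_cast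
    field_simp
  rw [h4]
  exact add_mem (add_mem (Submodule.smul_mem _ _ (Submodule.subset_span ⟨0, rfl⟩))
    (Submodule.smul_mem _ _ (Submodule.subset_span ⟨1, rfl⟩)))
    (Submodule.smul_mem _ _ (Submodule.subset_span ⟨2, rfl⟩))

end Pool.Agent.Pat7
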