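import Pool.Agent.Pat5.Defs

/-!
# Pat7: bilinear maps without zero divisors

A bilinear map with coefficients in the field of algebraic numbers, without nontrivial zeros over
this field, has no nontrivial zeros over the complex numbers (Nullstellensatz).
-/

set_option autoImplicit false

namespace Pool.Agent.Pat7

open Pool.Agent.Pat5 MvPolynomial

theorem extend_gen {m n : ℕ} {ι : Type} (a : ι → Fin m → Fin n → Qbar)
    (h : ∀ (t : Fin m → Qbar) (s : Fin n → Qbar), t ≠ 0 → s ≠ 0 →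
      ∃ o, ∑ i, ∑ j, t i * a o i j * s j ≠ 0)
    (t : Fin m → ℂ) (s : Fin n → ℂ) (ht : t ≠ 0) (hs : s ≠ 0) :
    ∃ o, ∑ i, ∑ j, t i * (a o i j : ℂ) * s j ≠ 0 := by
  classical
  by_contra hall
  push Not at hall
  obtain ⟨i₀, hi₀⟩ : ∃ i, t i ≠ 0 := by
    by_contra h0
    push Not at h0
    exact ht (funext h0)
  obtain ⟨j₀, hj₀⟩ : ∃ j, s j ≠ 0 := by
    by_contra h0
    push Not at h0
    exact hs (funext h0)
  let P : ι → MvPolynomial (Fin m ⊕ Fin n) Qbar := fun o =>
    ∑ i, ∑ j, X (Sum.inl i) * C (a o i j) * X (Sum.inr j)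
  let J : Ideal (MvPolynomial (Fin m ⊕ Fin n) Qbar) :=
    Ideal.span (Set.range P ∪ {X (Sum.inl i₀) - 1, X (Sum.inr j₀) - 1})
  let ev : MvPolynomial (Fin m ⊕ Fin n) Qbar →ₐ[Qbar] ℂ :=
    aeval (Sum.elim (fun i => t i / t i₀) (fun j => s j / s j₀))
  have hJ : J ≤ RingHom.ker ev := by
    rw [Ideal.span_le]
    rintro p (⟨o, rfl⟩ | rfl | rfl)
    · show ev (P o) = 0
      have h1 : ev (P o) = (∑ i, ∑ j, t i * (a o i j : ℂ) * s j) / (t i₀ * s j₀) := by
        simp only [ev, P, map_sum, map_mul, aeval_X, aeval_C, Sum.elim_inl, Sum.elim_inr]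
        rw [Finset.sum_div]
        refine Finset.sum_congr rfl fun i _ => ?_
        rw [Finset.sum_div]
        refine Finset.sum_congr rfl fun j _ => ?_
        have h2 : algebraMap Qbar ℂ (a o i j) = (a o i j : ℂ) := rfl
        rw [h2]
        field_simp
      rw [h1, hall o, zero_div]
    · show ev (X (Sum.inl i₀) - 1) = 0
      simp [ev, div_self hi₀]
    · show ev (X (Sum.inr j₀) - 1) = 0
      simp [ev, div_self hj₀]
  have hJ1 : J ≠ ⊤ := by
    intro h1
    have h2 : (1 : MvPolynomial (Fin m ⊕ Fin n) Qbar) ∈ RingHom.ker ev := by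
      apply hJ
      rw [h1]
      trivial
    have h3 : ev 1 = 0 := h2
    rw [map_one] at h3
    exact one_ne_zero h3
  obtain ⟨M, hM, hJM⟩ := Ideal.exists_le_maximal J hJ1
  have hcl : IsAlgClosed Qbar := (algebraicClosure.isAlgClosure ℚ ℂ).isAlgClosed
  obtain ⟨x, hx⟩ := (isMaximal_iff_eq_vanishingIdeal_singleton (K := Qbar)).1 hM
  have hz : ∀ p ∈ J, aeval x p = 0 := by
    intro p hp
    have h1 : p ∈ vanishingIdeal Qbar {x} := by
      rw [← hx]
      exact hJM hp
    exact (mem_vanishingIdeal_singleton_iff x p).1 h1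
  have h1 : x (Sum.inl i₀) = 1 := by
    have h2 := hz (X (Sum.inl i₀) - 1) (Ideal.subset_span (Or.inr (Or.inl rfl)))
    simpa [sub_eq_zero] using h2
  have h2 : x (Sum.inr j₀) = 1 := by
    have h3 := hz (X (Sum.inr j₀) - 1) (Ideal.subset_span (Or.inr (Or.inr rfl)))
    simpa [sub_eq_zero] using h3
  obtain ⟨o, ho⟩ := h (fun i => x (Sum.inl i)) (fun j => x (Sum.inr j))
    (fun h3 => by
      have h4 := congrFun h3 i₀
      rw [h1] at h4
      exact one_ne_zero h4)
    (fun h3 => by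
      have h4 := congrFun h3 j₀
      rw [h2] at h4
      exact one_ne_zero h4)
  apply ho
  have h3 := hz (P o) (Ideal.subset_span (Or.inl ⟨o, rfl⟩))
  simpa [P] using h3

end Pool.Agent.Pat7
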