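import Pool.Agent.Pat6.KFld
import Pool.Agent.Pat6.UTow

/-!
# Pat7: one of the numbers `z i` is prescribed

`Gen1 F k z`: the number `z k` is in the field `KF F` and the others are algebraically independent
over `KF F`.
-/

set_option autoImplicit false

namespace Pool.Agent.Pat7

open Complex Pool.Agent.Pat5 Pool.Agent.Pat6

/-- The number `z k` is in `KF F`, the others are algebraically independent over `KF F`. -/
structure Gen1 (F : Finset ℂ) {n : ℕ} (k : Fin (n + 1)) (z : Fin (n + 1) → ℝ) : Prop where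
  mem : (z k : ℂ) ∈ KF F
  ai : AlgebraicIndependent (KF F) (fun i : Fin n => (z (k.succAbove i) : ℂ))

/-- Algebraically independent numbers from one number and the others. -/
private theorem ai_succAbove {n : ℕ} (k : Fin (n + 1)) (z : Fin (n + 1) → ℝ) {κ : Type}
    {s : κ → ℂ} (h : AlgebraicIndependent ℚ (Sum.elim (Sum.elim (fun _ : Unit => (z k : ℂ)) s)
      (fun i : Fin n => (z (k.succAbove i) : ℂ)))) :
    AlgebraicIndependent ℚ (Sum.elim (fun i => (z i : ℂ)) s) := by
  classical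
  let φ : Fin (n + 1) ⊕ κ → (Unit ⊕ κ) ⊕ Fin n := fun i => i.elim
    (fun j => k.succAboveCases (Sum.inl (Sum.inl ())) (fun j => Sum.inr j) j)
    (fun j => Sum.inl (Sum.inr j))
  have hφ : Function.Injective φ := by
    rintro (i | i) (j | j) hij
    · rcases Fin.eq_self_or_eq_succAbove k i with h1 | ⟨i, rfl⟩ <;>
        rcases Fin.eq_self_or_eq_succAbove k j with h2 | ⟨j, rfl⟩ <;>
        simp_all [φ]
    · rcases Fin.eq_self_or_eq_succAbove k i with h1 | ⟨i, rfl⟩ <;> simp_all [φ]
    · rcases Fin.eq_self_or_eq_succAbove k j with h2 | ⟨j, rfl⟩ <;> simp_all [φ]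
    · simp_all [φ]
  have h1 := h.comp φ hφ
  convert h1 using 1
  funext i
  rcases i with i | i
  · rcases Fin.eq_self_or_eq_succAbove k i with h1 | ⟨i, rfl⟩
    · rw [h1]
      simp [φ]
    · simp [φ]
  · rfl

theorem Gen1.ai_Q {F : Finset ℂ} {n : ℕ} {k : Fin (n + 1)} {z : Fin (n + 1) → ℝ}
    (h : Gen1 F k z) (hk : Transcendental ℚ (z k : ℂ)) :
    AlgebraicIndependent ℚ (fun i => (z i : ℂ)) := by
  have h1 : AlgebraicIndependent ℚ (Sum.elim (fun _ : Unit => (z k : ℂ))
      (Empty.elim : Empty → ℂ)) := by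
    have h2 : AlgebraicIndependent ℚ (fun _ : Unit => (z k : ℂ)) :=
      (algebraicIndependent_unique_type_iff (x := fun _ : Unit => (z k : ℂ))).2 hk
    have h3 := h2.comp (Sum.elim id Empty.elim : Unit ⊕ Empty → Unit) (by
      rintro (i | i) (j | j) _
      · rfl
      · exact j.elim
      · exact i.elim
      · exact i.elim)
    convert h3 using 1
    funext i
    rcases i with i | i
    · rfl
    · exact i.elim
  have h4 := ai_sum (KF F) h1 (by
    rintro (i | i)
    · exact h.mem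
    · exact i.elim) h.ai
  have h5 := ai_succAbove k z h4
  have h6 := h5.comp (Sum.inl : Fin (n + 1) → Fin (n + 1) ⊕ Empty) Sum.inl_injective
  exact h6

/-- There are such numbers near given ones. -/
theorem exists_gen1 (F : Finset ℂ) {n : ℕ} (k : Fin (n + 1)) {u : ℝ} (huF : (u : ℂ) ∈ KF F)
    (t : Fin (n + 1) → ℝ) (ε : ℝ) (hε : 0 < ε) :
    ∃ z : Fin (n + 1) → ℝ, z k = u ∧ Gen1 F k z ∧ ∀ i, i ≠ k → |z i - t i| < ε := by
  obtain ⟨z, hz, hzt⟩ := exists_ai_nearF F t ε hε
  refine ⟨Function.update z k u, by simp, ⟨by simpa using huF, ?_⟩, fun i hi => ?_⟩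
  · have h1 := hz.comp k.succAbove Fin.succAbove_right_injective
    convert h1 using 1
    funext i
    simp [Fin.succAbove_ne]
  · rw [Function.update_of_ne hi]
    exact hzt i

/-- The fields `KF F` and `Kc z` meet in the algebraic closure of the field of `z k`. -/
theorem Gen1.inf {F : Finset ℂ} {n : ℕ} {k : Fin (n + 1)} {z : Fin (n + 1) → ℝ}
    (h : Gen1 F k z) (hk : Transcendental ℚ (z k : ℂ)) {x : ℂ} (h1 : x ∈ KF F)
    (h2 : x ∈ Kc z) : x ∈ KS z {k} := by
  by_contra hx
  have h3 : Kc (fun _ : Fin 1 => z k) ≤ KS z {k} := by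
    intro y hy
    rw [mem_Kc] at hy
    rw [mem_KS]
    have h4 : (fun i => (z i : ℂ)) '' {k} = Set.range (fun _ : Fin 1 => (z k : ℂ)) := by
      rw [Set.image_singleton, Set.range_const]
    rw [h4]
    exact hy
  have h4 : Transcendental (Kc (fun _ : Fin 1 => z k)) x := by
    intro h5
    exact hx (h3 (mem_Kc_of_isAlgebraic h5))
  have h5 : AlgebraicIndependent ℚ (fun _ : Unit => (z k : ℂ)) :=
    (algebraicIndependent_unique_type_iff (x := fun _ : Unit => (z k : ℂ))).2 hk
  have h6 : AlgebraicIndependent (Kc (fun _ : Fin 1 => z k)) (fun _ : Unit => x) :=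
    (algebraicIndependent_unique_type_iff (x := fun _ : Unit => x)).2 h4
  have h7 := ai_sum _ h5 (fun _ => coe_mem_Kc (fun _ : Fin 1 => z k) 0) h6
  have h8 := ai_sum (KF F) h7 (by
    rintro (i | i)
    · exact h.mem
    · exact h1) h.ai
  have h9 := ai_Kc _ (ai_succAbove k z h8)
  have h10 : Transcendental (Kc z) x :=
    (algebraicIndependent_unique_type_iff (x := fun _ : Unit => x)).1 h9
  exact h10 (isAlgebraic_algebraMap (⟨x, h2⟩ : Kc z))

theorem Gen1.big {F : Finset ℂ} {n : ℕ} {k : Fin (n + 1)} {z : Fin (n + 1) → ℝ}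
    (h : Gen1 F k z) :
    ∃ (m : ℕ) (z' : Fin m → ℝ), AlgebraicIndependent ℚ (fun i => (z' i : ℂ)) ∧
      Kc z ≤ Kc z' ∧ KF F ≤ Kc z' := by
  obtain ⟨m, z', hz', h1, h2⟩ := exists_big (z := fun i => z (k.succAbove i)) h.ai
  refine ⟨m, z', hz', ?_, h2⟩
  intro x hx
  rw [mem_Kc] at hx
  refine mem_Kc_of_isAlgebraic ?_
  have h3 : IntermediateField.adjoin ℚ (Set.range fun i => (z i : ℂ)) ≤ Kc z' := by
    rw [IntermediateField.adjoin_le_iff]
    rintro _ ⟨i, rfl⟩
    rcases Fin.eq_self_or_eq_succAbove k i with h4 | ⟨i, rfl⟩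
    · rw [h4]
      exact h2 h.mem
    · exact h1 (coe_mem_Kc (fun i => z (k.succAbove i)) i)
  let _ : Algebra (IntermediateField.adjoin ℚ (Set.range fun i => (z i : ℂ))) (Kc z') :=
    (IntermediateField.inclusion h3).toAlgebra
  have : IsScalarTower (IntermediateField.adjoin ℚ (Set.range fun i => (z i : ℂ))) (Kc z') ℂ :=
    IsScalarTower.of_algebraMap_eq fun _ => rfl
  exact hx.tower_top _

end Pool.Agent.Pat7
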