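import Pool.Agent.Pat7.Ranks
import Pool.Agent.Pat6.CoreF

/-!
# Pat7: the theorems on matrices for the models
-/

set_option autoImplicit false

namespace Pool.Agent.Pat7

open Complex Pool.Agent.Pat5 Pool.Agent.Pat6

/-- Polynomials of degree at most one. -/
private theorem aeval_lin {κ : Type} (S : Finset κ) (a : Qbar) (c : κ → Qbar) (w : κ → ℂ) :
    MvPolynomial.aeval w (MvPolynomial.C a + ∑ k ∈ S, MvPolynomial.C (c k) * MvPolynomial.X k) =
      (a : ℂ) + ∑ k ∈ S, (c k : ℂ) * w k := by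
  rw [map_add, map_sum, MvPolynomial.aeval_C]
  congr 1
  refine Finset.sum_congr rfl fun k _ => ?_
  rw [map_mul, MvPolynomial.aeval_C, MvPolynomial.aeval_X]
  rfl

private theorem lin' {κ : Type} {u : κ → ℂ} (hu : AlgebraicIndependent Qbar u)
    {m n : ℕ} (S : Finset κ) (a : Fin m → Fin n → Qbar) (c : Fin m → Fin n → κ → Qbar) (x : ℂ)
    (v : κ → ℂ) :
    (Matrix.of fun i j => (a i j : ℂ) * x + ∑ k ∈ S, (c i j k : ℂ) * v k).rank ≤
      (Matrix.of fun i j => (a i j : ℂ) + ∑ k ∈ S, (c i j k : ℂ) * u k).rank := by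
  let N : Matrix (Fin m) (Fin n) (MvPolynomial κ Qbar) :=
    Matrix.of fun i j => MvPolynomial.C (a i j) + ∑ k ∈ S, MvPolynomial.C (c i j k) *
      MvPolynomial.X k
  have hN : ∀ w : κ → ℂ, N.map (MvPolynomial.aeval w) =
      Matrix.of fun i j => (a i j : ℂ) + ∑ k ∈ S, (c i j k : ℂ) * w k := by
    intro w
    ext i j
    exact aeval_lin _ _ _ _
  let D : Matrix (Fin m) (Fin n) ℂ := Matrix.of fun i j => (a i j : ℂ)
  have hev : ∀ᶠ s in nhdsWithin (0 : ℂ) {0}ᶜ, x + s ≠ 0 := by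
    by_cases hz : x = 0
    · filter_upwards [self_mem_nhdsWithin] with s hs
      rw [hz, zero_add]
      exact hs
    · refine Filter.Eventually.filter_mono nhdsWithin_le_nhds ?_
      have hc : Continuous fun s : ℂ => x + s := by fun_prop
      refine hc.continuousAt.eventually_ne ?_
      rwa [add_zero]
  refine rank_near _ D hev fun s hx => ?_
  rw [← hN u]
  have h1 := rank_spec N hu (fun k => v k / (x + s))
  refine le_trans (le_of_eq ?_) h1
  rw [hN]
  rw [← rank_smul_eq hx (Matrix.of fun i j => (a i j : ℂ) +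
    ∑ k ∈ S, (c i j k : ℂ) * (v k / (x + s)))]
  congr 1
  ext i j
  show (a i j : ℂ) * x + ∑ k ∈ S, (c i j k : ℂ) * v k + s * (a i j : ℂ) =
    (x + s) * ((a i j : ℂ) + ∑ k ∈ S, (c i j k : ℂ) * (v k / (x + s)))
  have h2 : ∀ k, (c i j k : ℂ) * (v k / (x + s)) = (c i j k : ℂ) * v k / (x + s) := by
    intro k
    ring
  simp only [h2]
  rw [← Finset.sum_div]
  field_simp
  ring

/-- The structural rank for algebraically independent numbers. -/
theorem strong_span {κ : Type} {u : κ → ℂ} (hu : AlgebraicIndependent Qbar u)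
    (L : Submodule Qbar ℂ) (hL : L = Submodule.span Qbar ({1, 0} ∪ Set.range u)) {m n : ℕ}
    (M : Matrix (Fin m) (Fin n) L) (φ : L →ₗ[Qbar] ℂ) :
    (M.map φ).rank ≤ (M.map fun x => (x : ℂ)).rank := by
  classical
  have h1 : ∀ i j, ∃ c : Option (Option κ) →₀ Qbar,
      (c.sum fun o q => q • fam 0 u o) = (M i j : ℂ) := by
    intro i j
    refine Finsupp.mem_span_range_iff_exists_finsupp.1 ?_
    rw [fam_range, ← hL]
    exact (M i j).2
  choose c hc using h1
  obtain ⟨S, hS⟩ := exists_support c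
  have hmem : ∀ o, fam 0 u o ∈ L := by
    intro o
    rw [hL, ← fam_range]
    exact Submodule.subset_span ⟨o, rfl⟩
  let ξ : Option (Option κ) → L := fun o => ⟨fam 0 u o, hmem o⟩
  have hξ : ξ (some none) = 0 := rfl
  have h2 : ∀ i j, M i j = (c i j).sum fun o q => q • ξ o := by
    intro i j
    apply Subtype.ext
    rw [← hc i j, Finsupp.sum, Finsupp.sum, Submodule.coe_sum]
    rfl
  have h3 := lin' hu S (fun i j => c i j none)
    (fun i j k => c i j (some (some k))) (φ (ξ none)) (fun k => φ (ξ (some (some k))))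
  have e1 : M.map φ = Matrix.of fun i j => (c i j none : ℂ) * φ (ξ none) +
      ∑ k ∈ S, (c i j (some (some k)) : ℂ) * φ (ξ (some (some k))) := by
    ext i j
    show φ (M i j) = _
    rw [h2 i j, finsupp_split S (c i j) (hS i j), hξ, smul_zero, add_zero, map_add, map_sum,
      map_smul]
    simp only [map_smul]
    rfl
  have e2 : (M.map fun x => (x : ℂ)) = Matrix.of fun i j => (c i j none : ℂ) +
      ∑ k ∈ S, (c i j (some (some k)) : ℂ) * u k := by
    ext i j
    show (M i j : ℂ) = _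
    rw [← hc i j, finsupp_split S (c i j) (hS i j)]
    show (c i j none : ℂ) * 1 + (c i j (some none) : ℂ) * 0 +
        ∑ k ∈ S, (c i j (some (some (k : κ))) : ℂ) * u k = _
    rw [mul_one, mul_zero, add_zero]
    rfl
  rw [e1, e2]
  exact h3

/-- The reindexing of the family `v, s, p, s'`. -/
private def core_reindex (ν κ₁ κ₂ : Type) :
    (ν ⊕ κ₁) ⊕ (Unit ⊕ κ₂) → (Unit ⊕ ν) ⊕ (κ₁ ⊕ κ₂) :=
  Sum.elim (Sum.elim (fun i => Sum.inl (Sum.inr i)) (fun k => Sum.inr (Sum.inl k)))
    (Sum.elim (fun u => Sum.inl (Sum.inl u)) (fun k => Sum.inr (Sum.inr k)))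

private theorem core_reindex_injective (ν κ₁ κ₂ : Type) :
    Function.Injective (core_reindex ν κ₁ κ₂) := by
  rintro ((i | i) | (i | i)) ((j | j) | (j | j)) h <;> simp_all [core_reindex]

private theorem core_ai {n : ℕ} {z : Fin n → ℝ} {ν χ : Type} {e p : ℝ}
    {v w : ν → ℝ} {X Y : χ → ℝ} (D : Dat z e p v w X Y) {κ₁ κ₂ : Type} (s : κ₁ → ℝ)
    (s' : κ₂ → ℝ)
    (hai : AlgebraicIndependent (Kc z) (Sum.elim (fun k => (s k : ℂ)) (fun k => (s' k : ℂ))))
    (hS : Strong p v) :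
    AlgebraicIndependent ℚ (Sum.elim (fun i => ((Sum.elim v s i : ℝ) : ℂ))
        (fun j => ((Sum.elim (fun _ : Unit => p) s' j : ℝ) : ℂ))) := by
  have h := ai_sum (Kc z) hS (by
    rintro (_ | i)
    · exact D.p_mem
    · exact D.v_mem i) hai
  have h2 := h.comp (core_reindex ν κ₁ κ₂) (core_reindex_injective ν κ₁ κ₂)
  refine cast ?_ h2
  congr 1
  funext o
  rcases o with (i | i) | (i | i) <;> rfl

private theorem core_sets {ν κ₁ κ₂ : Type} (p : ℝ) (v : ν → ℝ) (s : κ₁ → ℝ) (s' : κ₂ → ℝ) :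
    ({1} ∪ Set.range (Sum.elim (fun i => ((Sum.elim v s i : ℝ) : ℂ))
        (fun j => ((Sum.elim (fun _ : Unit => p) s' j : ℝ) : ℂ))) : Set ℂ) =
      ({1, (p : ℂ)} ∪ Set.range (fun i => (v i : ℂ))) ∪
        Set.range (Sum.elim (fun k => (s k : ℂ)) (fun k => (s' k : ℂ))) := by
  ext t
  constructor
  · rintro (ht | ⟨((i | i) | (i | i)), rfl⟩)
    · exact Or.inl (Or.inl (Or.inl ht))
    · exact Or.inl (Or.inr ⟨i, rfl⟩)
    · exact Or.inr ⟨Sum.inl i, rfl⟩
    · exact Or.inl (Or.inl (Or.inr rfl))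
    · exact Or.inr ⟨Sum.inr i, rfl⟩
  · rintro (((ht | ht) | ⟨i, rfl⟩) | ⟨(i | i), rfl⟩)
    · exact Or.inl ht
    · exact Or.inr ⟨Sum.inr (Sum.inl ()), ht.symm⟩
    · exact Or.inr ⟨Sum.inl (Sum.inl i), rfl⟩
    · exact Or.inr ⟨Sum.inl (Sum.inr i), rfl⟩
    · exact Or.inr ⟨Sum.inr (Sum.inr i), rfl⟩

private theorem core_sets' {ι κ : Type} (Y : ℂ) (x : ι → ℂ) (s : κ → ℂ) :
    ({1, Y} ∪ Set.range x) ∪ Set.range s = ({1, Y} ∪ Set.range (Sum.elim x s) : Set ℂ) := by
  rw [Set.Sum.elim_range, Set.union_assoc]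

theorem matrices_of {n : ℕ} {z : Fin n → ℝ} {ν χ : Type} [Finite ν] [Finite χ] {e p : ℝ}
    {v w : ν → ℝ} {X Y : χ → ℝ} (D : Dat z e p v w X Y) (hq : Strong p v ∨ QuadHyp z p v)
    {f g : ℝ ≃ₗ[ℚ] ℝ} (hf : ∀ a ∈ baseG e v w X Y, f a.1 = a.2)
    (hg : ∀ a ∈ baseH p, g a.1 = a.2) (hgood : GoodStep (Kc z) (base e p v w X Y) (gr f g)) :
    Matrices (EE f g) := by
  obtain ⟨κ₁, κ₂, s, s', -, -, -, -, -, hLr, hLi, hai⟩ := master_of D hf hg hgood
  have hspan := logSpan_EE f g _ _ hLr hLi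
  rcases hq with hS | ⟨ι, x₀, i0, m, Y₀, hxai, hxm, hm0, hi0, hxY, hsp⟩
  · have hu := ai_Qbar (core_ai D s s' hai hS)
    have hL : logSpan (EE f g) = Submodule.span Qbar ({1, 0} ∪
        Set.range (Sum.elim (fun i => ((Sum.elim v s i : ℝ) : ℂ))
        (fun j => ((Sum.elim (fun _ : Unit => p) s' j : ℝ) : ℂ)))) := by
      rw [hspan]
      refine le_antisymm (Submodule.span_mono ?_) (Submodule.span_le.2 ?_)
      · exact Set.union_subset_union_left _ (by simp)
      · rintro t ((rfl | ht) | ht)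
        · exact Submodule.subset_span (Or.inl rfl)
        · rw [Set.mem_singleton_iff] at ht
          rw [ht]
          exact zero_mem _
        · exact Submodule.subset_span (Or.inr ht)
    refine ⟨fun m n M φ => ?_, fun m n M hmn hM hg => ?_⟩
    · have h := strong_span hu (logSpan (EE f g)) hL M φ
      omega
    · refine full_span hu 0 hmn M (fun i j => ?_) hg
      rw [← hL]
      exact hM i j
  · have hu := ai_Qbar (ai_sum (Kc z) hxai hxm hai)
    have hL : logSpan (EE f g) = Submodule.span Qbar ({1, Y₀} ∪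
        Set.range (Sum.elim x₀ (Sum.elim (fun k => (s k : ℂ)) (fun k => (s' k : ℂ))))) := by
      rw [hspan, core_sets, Submodule.span_union, ← hsp, ← Submodule.span_union, core_sets']
    refine ⟨fun m' n M φ => ?_, fun m' n M hmn hM hg => ?_⟩
    · refine half_span hu (i₀ := Sum.inl i0) (P := MvPolynomial.rename Sum.inl m) ?_ ?_ ?_
        (logSpan (EE f g)) hL M φ
      · intro h0
        exact hm0 (MvPolynomial.rename_injective _ Sum.inl_injective (by rw [h0, map_zero]))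
      · classical
        intro hmem
        have h2 := MvPolynomial.vars_rename (Sum.inl : ι → ι ⊕ (κ₁ ⊕ κ₂)) m hmem
        rw [Finset.mem_image] at h2
        obtain ⟨j, hj, hji⟩ := h2
        rw [Sum.inl_injective hji] at hj
        exact hi0 hj
      · rw [MvPolynomial.aeval_rename, Sum.elim_comp_inl, Sum.elim_inl]
        exact hxY
    · refine full_span hu Y₀ hmn M (fun i j => ?_) hg
      rw [← hL]
      exact hM i j

end Pool.Agent.Pat7
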