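import Pool.Agent.Pat7.Num
import Pool.Agent.Pat7.KF1
import Pool.Agent.Pat7.Ranks2

/-!
# Pat7: the generic extension near the exponential function, with the true number `π`

As `gen_near` (`Pool/Agent/Pat6/NearGen.lean`), with `p = π`: the number `z k` is in `KF F`, the
other `z i` are generic over this field, and the elements of the real part of the base which are
algebraic over the field of `z k` are rational combinations of the numbers `b i`.
-/

set_option autoImplicit false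

namespace Pool.Agent.Pat7

open Complex Pool.Agent.Pat5 Pool.Agent.Pat6

private theorem ng_li {W : Submodule ℚ ℝ} {r : ℕ} {x : Fin r → ℝ}
    (h : ∀ c : Fin r → ℚ, ∑ i, c i • x i ∈ W → ∀ i, c i = 0) :
    LinearIndependent ℚ (fun i => W.mkQ (x i)) := by
  rw [Fintype.linearIndependent_iff]
  intro c hc
  refine h c ?_
  rw [← Submodule.Quotient.mk_eq_zero, ← Submodule.mkQ_apply, map_sum, ← hc]
  exact Finset.sum_congr rfl fun i _ => map_smul _ _ _

/-- Combinations of the second part of an independent family in the span of the first part. -/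
private theorem ng_sum {m r : ℕ} {b : Fin m → ℝ} {x : Fin r → ℝ}
    (h : LinearIndependent ℚ (Sum.elim b x)) {c : Fin r → ℚ}
    (hc : ∑ i, c i • x i ∈ Submodule.span ℚ (Set.range b)) : ∀ i, c i = 0 := by
  obtain ⟨d, hd⟩ := (Submodule.mem_span_range_iff_exists_fun ℚ).1 hc
  have h1 : ∑ o : Fin m ⊕ Fin r, (Sum.elim (fun i => -d i) c o : ℚ) •
      (Sum.elim b x o : ℝ) = 0 := by
    rw [Fintype.sum_sum_type]
    simp only [Sum.elim_inl, Sum.elim_inr, neg_smul, Finset.sum_neg_distrib]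
    rw [hd]
    ring
  intro i
  exact Fintype.linearIndependent_iff.1 h _ h1 (Sum.inr i)

private theorem ng_I (K : IntermediateField ℚ ℂ) : IsAlgebraic K I := by
  refine IsAlgebraic.of_pow (n := 2) two_pos ?_
  rw [I_sq]
  exact isAlgebraic_one.neg

theorem gen_near2 (F : Finset ℂ) (ε : ℝ) (hε : 0 < ε) {m : ℕ} (b : Fin m → ℝ)
    (hb : LinearIndependent ℚ b) : ∃ δ : ℝ, 0 < δ ∧
    ∀ {n : ℕ} {k : Fin (n + 1)} {z : Fin (n + 1) → ℝ} {ν χ : Type} [Finite ν] [Finite χ] {e : ℝ}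
      {v w : ν → ℝ} {X Y : χ → ℝ} (_ : Dat z e Real.pi v w X Y), Gen1 F k z →
      Transcendental ℚ (z k : ℂ) →
      (∀ u ∈ (baseG e v w X Y).map (LinearMap.fst ℚ ℝ ℝ), (u : ℂ) ∈ KS z {k} →
        u ∈ Submodule.span ℚ (Set.range b)) →
      ∃ f g : ℝ ≃ₗ[ℚ] ℝ, (∀ a ∈ baseG e v w X Y, f a.1 = a.2) ∧
        (∀ a ∈ baseH Real.pi, g a.1 = a.2) ∧
        GoodStep (Kc z) (base e Real.pi v w X Y) (gr f g) ∧
        ((∀ i, |f (b i) - b i| < δ) → ∀ a ∈ F, ‖EE f g a - exp a‖ < ε) := by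
  have hpi : LinearIndependent ℚ ![Real.pi] := by
    rw [linearIndependent_unique_iff]
    exact Real.pi_ne_zero
  obtain ⟨r, s, x, y, δ, hδ, hx, hy, hxF, hyF, hnear⟩ := near_num2 F ε hε b hb ![Real.pi] hpi
  refine ⟨δ, hδ, ?_⟩
  intro n k z ν χ _ _ e v w X Y D hz hk hdom
  obtain ⟨m', z', hz', hle, hF⟩ := hz.big
  obtain ⟨K, t, hK0, hS⟩ := exists_supply z' hz'
  obtain ⟨s0, hs0G, hs0H⟩ := exists_base D
  have hKz : Kc z ≤ K 0 := by
    rw [hK0]
    exact hle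
  have hKF : KF F ≤ K 0 := by
    rw [hK0]
    exact hF
  have h01 : K 0 ≤ K 1 := hS.mono (by norm_num)
  have h12 : K 1 ≤ K 2 := hS.mono (by norm_num)
  obtain ⟨s1, hs1G, hs1H⟩ := s0.up hKz
  rw [hs0G] at hs1G
  rw [hs0H] at hs1H
  have hxK : ∀ i, (x i : ℂ) ∈ KF F := by
    intro i
    obtain ⟨a, ha, hai⟩ := hxF i
    rw [hai]
    exact re_mem_KF ha
  have hyK : ∀ i, (y i : ℂ) ∈ KF F := by
    intro i
    obtain ⟨a, ha, hai⟩ := hyF i
    rw [hai]
    exact im_mem_KF ha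
  have hsumK : ∀ {k : ℕ} (c : Fin k → ℚ) (x : Fin k → ℝ), (∀ i, (x i : ℂ) ∈ KF F) →
      ((∑ i, c i • x i : ℝ) : ℂ) ∈ KF F := by
    intro k c x hxK
    rw [ofReal_sum]
    refine (KF F).sum_mem fun i _ => ?_
    rw [Rat.smul_def, ofReal_mul, ofReal_ratCast]
    exact (KF F).mul_mem ((KF F).algebraMap_mem _) (hxK i)
  -- the first step
  have hli1 : LinearIndependent ℚ (fun i => (s1.G.map (LinearMap.fst ℚ ℝ ℝ)).mkQ (x i)) := by
    refine ng_li fun c hc => ?_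
    rw [hs1G] at hc
    have h1 : ((∑ i, c i • x i : ℝ) : ℂ) ∈ Kc z := by
      obtain ⟨a, ha, hae⟩ := hc
      rw [← hs0G] at ha
      have := (s0.G_K a ha).1
      rw [← hae]
      exact this
    exact ng_sum hx (hdom _ hc (hz.inf hk (hsumK c x hxK) h1))
  have hb1 : ∀ i : Fin r, ∃ q : ℚ, 0 < q ∧ |Real.log (q * t 0 ((i : ℕ) : ℝ)) - x i| < δ :=
    fun i => near_log (x i) δ _ hδ (hS.pos 0 _)
  choose q hq hql using hb1
  have hinj : ∀ k : ℕ, Function.Injective (fun i : Fin k => ((i : ℕ) : ℝ)) := by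
    intro k i j h
    exact Fin.ext (Nat.cast_injective h)
  have hai1 : AlgebraicIndependent (K 0)
      (fun i : Fin r => ((q i * t 0 ((i : ℕ) : ℝ) : ℝ) : ℂ)) := by
    have h1 := scale_ai ((hS.ai 0).comp _ (hinj r)) (c := fun i => (q i : ℂ))
      (fun i => (K 0).algebraMap_mem (q i)) (fun i => by exact_mod_cast (hq i).ne')
    have h2 : (fun i : Fin r => ((q i * t 0 ((i : ℕ) : ℝ) : ℝ) : ℂ)) = fun i =>
        (q i : ℂ) * ((fun r => (t 0 r : ℂ)) ∘ fun i : Fin r => ((i : ℕ) : ℝ)) i := by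
      funext i
      rw [ofReal_mul, ofReal_ratCast]
      rfl
    rw [h2]
    exact h1
  have hm1 : ∀ i : Fin r, ((q i * t 0 ((i : ℕ) : ℝ) : ℝ) : ℂ) ∈ K 1 := by
    intro i
    rw [ofReal_mul, ofReal_ratCast]
    exact (K 1).mul_mem ((K 1).algebraMap_mem _) (hS.mem 0 _)
  obtain ⟨s2, hs2G, hs2H, hst1, hs2x⟩ := add_G (hS.acl 0) (hS.acl 1) h01 s1 x
    (fun i : Fin r => q i * t 0 ((i : ℕ) : ℝ)) (fun i => hKF (hxK i)) hli1
    (fun i => mul_pos (by exact_mod_cast hq i) (hS.pos 0 _)) hai1 hm1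
  -- the second step
  have hli2 : LinearIndependent ℚ (fun i => (s2.H.map (LinearMap.fst ℚ ℝ ℝ)).mkQ (y i)) := by
    refine ng_li fun c hc => ?_
    rw [hs2H, hs1H] at hc
    obtain ⟨a, ha, hae⟩ := hc
    obtain ⟨b, rfl⟩ := Submodule.mem_span_singleton.1 ha
    have h1 : b • Real.pi = ∑ i, c i • y i := hae
    refine ng_sum hy ?_
    rw [← h1]
    exact Submodule.smul_mem _ _ (Submodule.subset_span ⟨0, rfl⟩)
  have hb2 : ∀ i : Fin s, ∃ (q : ℚ) (θ : ℝ), q ≠ 0 ∧ |θ - y i| < δ ∧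
      exp ((θ : ℂ) * I) = exp (ang (q * t 1 ((i : ℕ) : ℝ)) * I) :=
    fun i => near_ang (y i) δ _ hδ (hS.pos 1 _)
  choose q' θ hq' hθ hθe using hb2
  have hai2' : AlgebraicIndependent (K 1)
      (fun i : Fin s => ((q' i * t 1 ((i : ℕ) : ℝ) : ℝ) : ℂ)) := by
    have h1 := scale_ai ((hS.ai 1).comp _ (hinj s)) (c := fun i => (q' i : ℂ))
      (fun i => (K 1).algebraMap_mem (q' i)) (fun i => by exact_mod_cast hq' i)
    have h2 : (fun i : Fin s => ((q' i * t 1 ((i : ℕ) : ℝ) : ℝ) : ℂ)) = fun i =>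
        (q' i : ℂ) * ((fun r => (t 1 r : ℂ)) ∘ fun i : Fin s => ((i : ℕ) : ℝ)) i := by
      funext i
      rw [ofReal_mul, ofReal_ratCast]
      rfl
    rw [h2]
    exact h1
  have hai2 : AlgebraicIndependent (K 1) (fun i => exp ((θ i : ℂ) * I)) := by
    refine ai_pointwise hai2' fun i => ?_
    exact alg_circle (ng_I (K 1)) (q' i * t 1 ((i : ℕ) : ℝ)) _
      ((hθe i).trans (exp_ang _))
  have hI2 : I ∈ K 2 := hS.acl 2 I (ng_I (K 2))
  have hm2 : ∀ i, exp ((θ i : ℂ) * I) ∈ K 2 := by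
    intro i
    rw [hθe i, exp_ang]
    have h1 : ((q' i * t 1 ((i : ℕ) : ℝ) : ℝ) : ℂ) ∈ K 2 := by
      rw [ofReal_mul, ofReal_ratCast]
      exact (K 2).mul_mem ((K 2).algebraMap_mem _) (hS.mem 1 _)
    exact (K 2).div_mem ((K 2).add_mem (K 2).one_mem ((K 2).mul_mem h1 hI2))
      ((K 2).sub_mem (K 2).one_mem ((K 2).mul_mem h1 hI2))
  obtain ⟨s3, hs3G, hs3H, hst2, hs3y⟩ := add_H (hS.acl 1) (hS.acl 2) h12 s2 y θ
    (fun i => h01 (hKF (hyK i))) hli2 hai2 hm2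
  -- the generic extension
  have hS' : Supply (fun n => K (n + 2)) (fun n => t (n + 2)) :=
    { mono := fun a b hab => hS.mono (by omega)
      acl := fun n => hS.acl (n + 2)
      pos := fun n => hS.pos (n + 2)
      ai := fun n => hS.ai (n + 2)
      mem := fun n => hS.mem (n + 2)
      all := fun x => by
        obtain ⟨n, hn⟩ := hS.all x
        exact ⟨n, hS.mono (by omega) hn⟩ }
  obtain ⟨f, g, hfG, hgH, hst3⟩ := gen hS' (K₀ := K 2) rfl s3
  have hstep : GoodStep (K 0) s1.cx (gr f g) :=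
    GoodStep.trans h01 (stage_coords (hS.acl 1) s2) hst1
      (GoodStep.trans h12 (stage_coords (hS.acl 2) s3) hst2 hst3)
  have hcx : s1.cx = base e Real.pi v w X Y := by
    rw [Stage.cx, base, hs1G, hs1H]
  refine ⟨f, g, ?_, ?_, ?_, fun hfb => ?_⟩
  · intro a ha
    refine hfG a ?_
    rw [hs3G]
    refine hs2G ?_
    rw [hs1G]
    exact ha
  · intro a ha
    refine hgH a (hs3H ?_)
    rw [hs2H, hs1H]
    exact ha
  · rw [← hcx]
    exact good_down hKz hstep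
  · refine hnear f g hfb ?_ ?_ ?_
    · intro i
      have h1 : f (x i) = Real.log (q i * t 0 ((i : ℕ) : ℝ)) := hfG _ (by
        rw [hs3G]
        exact hs2x i)
      rw [h1]
      exact hql i
    · intro i
      have h1 : g Real.pi = Real.pi := hgH (Real.pi, Real.pi) (hs3H (by
        rw [hs2H, hs1H]
        exact Submodule.subset_span rfl))
      fin_cases i
      show |g Real.pi - Real.pi| < δ
      rw [h1, sub_self, abs_zero]
      exact hδ
    · intro i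
      have h1 : g (y i) = θ i := hgH _ (hs3y i)
      rw [h1]
      exact hθ i

theorem core4 (F : Finset ℂ) (ε : ℝ) (hε : 0 < ε) {m : ℕ} (b : Fin m → ℝ)
    (hb : LinearIndependent ℚ b) : ∃ δ : ℝ, 0 < δ ∧
    ∀ {n : ℕ} {k : Fin (n + 1)} {z : Fin (n + 1) → ℝ} {ν χ : Type} [Finite ν] [Finite χ] {e : ℝ}
      {v w : ν → ℝ} {X Y : χ → ℝ} (_ : Dat z e Real.pi v w X Y)
      (_ : Strong Real.pi v ∨ QuadHyp z Real.pi v), Gen1 F k z →
      Transcendental ℚ (z k : ℂ) →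
      (∀ u ∈ (baseG e v w X Y).map (LinearMap.fst ℚ ℝ ℝ), (u : ℂ) ∈ KS z {k} →
        u ∈ Submodule.span ℚ (Set.range b)) →
      ∃ f g : ℝ ≃ₗ[ℚ] ℝ, f 1 = Real.log e ∧ g Real.pi = Real.pi ∧ (∀ i, f (v i) = w i) ∧
        (∀ j, f (X j) = Y j) ∧ Theorems (EE f g) ∧ (Strong Real.pi v → LogIndep (EE f g)) ∧
        base e Real.pi v w X Y ≤ gr f g ∧ coords (base e Real.pi v w X Y) ⊆ Kc z ∧
        GoodStep (Kc z) (base e Real.pi v w X Y) (gr f g) ∧ Matrices (EE f g) ∧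
        ((∀ i, |f (b i) - b i| < δ) → ∀ a ∈ F, ‖EE f g a - exp a‖ < ε) := by
  obtain ⟨δ, hδ, h⟩ := gen_near2 F ε hε b hb
  refine ⟨δ, hδ, fun D hq hz hk hdom => ?_⟩
  obtain ⟨f, g, hf, hg, hgood, hn⟩ := h D hz hk hdom
  obtain ⟨h1, h2, h3, h4, h5, h6, h7, h8⟩ := core_of D hq hf hg hgood
  exact ⟨f, g, h1, h2, h3, h4, h5, h6, h7, h8, hgood, matrices_of D hq hf hg hgood, hn⟩

/-- The same with a number `p` which is equal to `π`. -/
theorem core5 (F : Finset ℂ) (ε : ℝ) (hε : 0 < ε) {m : ℕ} (b : Fin m → ℝ)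
    (hb : LinearIndependent ℚ b) : ∃ δ : ℝ, 0 < δ ∧
    ∀ {n : ℕ} {k : Fin (n + 1)} {z : Fin (n + 1) → ℝ} {ν χ : Type} [Finite ν] [Finite χ]
      {e p : ℝ} {v w : ν → ℝ} {X Y : χ → ℝ} (_ : p = Real.pi) (_ : Dat z e p v w X Y)
      (_ : Strong p v ∨ QuadHyp z p v), Gen1 F k z →
      Transcendental ℚ (z k : ℂ) →
      (∀ u ∈ (baseG e v w X Y).map (LinearMap.fst ℚ ℝ ℝ), (u : ℂ) ∈ KS z {k} →
        u ∈ Submodule.span ℚ (Set.range b)) →
      ∃ f g : ℝ ≃ₗ[ℚ] ℝ, f 1 = Real.log e ∧ g p = Real.pi ∧ (∀ i, f (v i) = w i) ∧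
        (∀ j, f (X j) = Y j) ∧ Theorems (EE f g) ∧ (Strong p v → LogIndep (EE f g)) ∧
        base e p v w X Y ≤ gr f g ∧ coords (base e p v w X Y) ⊆ Kc z ∧
        GoodStep (Kc z) (base e p v w X Y) (gr f g) ∧ Matrices (EE f g) ∧
        ((∀ i, |f (b i) - b i| < δ) → ∀ a ∈ F, ‖EE f g a - exp a‖ < ε) := by
  obtain ⟨δ, hδ, h⟩ := core4 F ε hε b hb
  refine ⟨δ, hδ, ?_⟩
  intro n k z ν χ _ _ e p v w X Y hp D hq hz hk hdom
  subst hp
  exact h D hq hz hk hdom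

end Pool.Agent.Pat7
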