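import Pool.Agent.Pat7.Ext
import Pool.Agent.Pat5.AiAlg
import Pool.Agent.Pat5.Kc

/-!
# Pat7: matrices whose entries are linear forms in algebraically independent numbers

`rank_fin`: let `M` be a matrix with `m` rows and `n > m` columns, the entries of which are linear
combinations, with coefficients in the field of algebraic numbers, of `1`, a number `Y` and
algebraically independent numbers `u k`. If `∑ t i * M i j * s j ≠ 0` for all nonzero vectors `t`,
`s` of algebraic numbers, then the rows of `M` are linearly independent.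

PROOF. Let `t` be a linear relation between the rows, with `t i₀ = 1`, and `T` the field generated by
the `t i`. The `n` linear relations `∑ i, t i * M i j = 0` between `1, Y, u` over `T` are linearly
independent, since the bilinear map has no zero divisors over `ℂ` (`extend_gen`). So `Y, u` are in
`T + ∑ T * b k` with at most `#κ + 1 - n` numbers `b k`, and the `#κ` numbers `u k` are in a field
generated by `(m - 1) + (#κ + 1 - n) < #κ` numbers.
-/

set_option autoImplicit false

namespace Pool.Agent.Pat7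

open Complex Pool.Agent.Pat5

/-- A field generated by fewer than `#κ` numbers does not contain `#κ` algebraically independent
numbers. -/
theorem few_generators {κ : Type} [Fintype κ] {u : κ → ℂ} (hu : AlgebraicIndependent Qbar u)
    {γ : Type} [Fintype γ] (g : γ → ℂ) (hcard : Fintype.card γ < Fintype.card κ)
    (h : ∀ k, u k ∈ IntermediateField.adjoin Qbar (Set.range g)) : False := by
  classical
  let g' : Option γ → ℂ := fun o => o.elim 0 g
  have hc : Fintype.card (Option γ) ≤ Fintype.card κ := by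
    rw [Fintype.card_option]
    exact hcard
  obtain ⟨φ⟩ := Function.Embedding.nonempty_of_card_le hc
  let y : κ → ℂ := g' ∘ Function.invFun φ
  have hy : Set.range g ⊆ Set.range y := by
    rintro _ ⟨c, rfl⟩
    refine ⟨φ (some c), ?_⟩
    simp only [y, Function.comp_apply]
    rw [Function.leftInverse_invFun φ.injective]
    rfl
  have h0 : y (φ none) = 0 := by
    simp only [y, Function.comp_apply]
    rw [Function.leftInverse_invFun φ.injective]
    rfl
  have hle : IntermediateField.adjoin Qbar (Set.range g) ≤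
      IntermediateField.adjoin Qbar (Set.range y) := IntermediateField.adjoin.mono _ _ _ hy
  have h1 := ai_of_alg (y := y) hu fun k => isAlgebraic_algebraMap
    (⟨u k, hle (h k)⟩ : IntermediateField.adjoin Qbar (Set.range y))
  exact h1.ne_zero (φ none) h0

/-- Numbers with many linear relations over a field `T`. -/
theorem many_relations (T : IntermediateField Qbar ℂ) {ι : Type} [Fintype ι] (ξ : ι → ℂ) {n : ℕ}
    (c : Fin n → ι → T) (d : Fin n → T) (h : ∀ j, (d j : ℂ) + ∑ o, (c j o : ℂ) * ξ o = 0)
    (hli : ∀ s : Fin n → T, (∀ o, ∑ j, s j * c j o = 0) → s = 0) :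
    ∃ (r : ℕ) (b : Fin r → ℂ), r + n ≤ Fintype.card ι ∧
      ∀ o, ∃ (a : T) (e : Fin r → T), ξ o = a + ∑ k, (e k : ℂ) * b k := by
  classical
  let W : Submodule T ℂ := Submodule.span T {1}
  let φ : (ι → T) →ₗ[T] ℂ ⧸ W := W.mkQ.comp (Fintype.linearCombination T ξ)
  have hφ : ∀ x, φ x = W.mkQ (∑ o, (x o : ℂ) * ξ o) := by
    intro x
    simp only [φ, LinearMap.comp_apply, Fintype.linearCombination_apply]
    rfl
  have hker : ∀ j, c j ∈ LinearMap.ker φ := by
    intro j
    rw [LinearMap.mem_ker, hφ, Submodule.mkQ_apply, Submodule.Quotient.mk_eq_zero]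
    have h1 : ∑ o, (c j o : ℂ) * ξ o = (-d j) • (1 : ℂ) := by
      have h2 := h j
      rw [Algebra.smul_def, mul_one]
      show _ = ((-d j : T) : ℂ)
      push_cast
      linear_combination h2
    rw [h1]
    exact Submodule.smul_mem _ _ (Submodule.mem_span_singleton_self 1)
  have hli' : LinearIndependent T (fun j => (⟨c j, hker j⟩ : LinearMap.ker φ)) := by
    rw [Fintype.linearIndependent_iff]
    intro s hs
    have h1 : s = 0 := by
      refine hli s fun o => ?_
      have h2 := congrArg (fun x : LinearMap.ker φ => (x : ι → T) o) hs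
      simpa [Finset.sum_apply, Pi.smul_apply, smul_eq_mul] using h2
    intro j
    rw [h1]
    rfl
  have h1 : n ≤ Module.finrank T (LinearMap.ker φ) := by
    have h2 := hli'.fintype_card_le_finrank
    rwa [Fintype.card_fin] at h2
  have h2 := LinearMap.finrank_range_add_finrank_ker φ
  rw [Module.finrank_fintype_fun_eq_card] at h2
  let B := Module.finBasis T (LinearMap.range φ)
  choose b hb using fun k => Submodule.Quotient.mk_surjective W (B k : ℂ ⧸ W)
  refine ⟨Module.finrank T (LinearMap.range φ), b, by omega, fun o => ?_⟩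
  obtain ⟨e, he⟩ : ∃ e : Fin (Module.finrank T (LinearMap.range φ)) → T,
      ∑ k, e k • (B k : ℂ ⧸ W) = φ (Pi.single o 1) := by
    have h3 : φ (Pi.single o 1) ∈ LinearMap.range φ := ⟨_, rfl⟩
    refine ⟨fun k => B.repr ⟨_, h3⟩ k, ?_⟩
    have h5 := congrArg (fun x : LinearMap.range φ => (x : ℂ ⧸ W)) (B.sum_repr ⟨_, h3⟩)
    simpa only [Submodule.coe_sum, Submodule.coe_smul] using h5
  have h6 : ∑ o', ((Pi.single o (1 : T) : ι → T) o' : ℂ) * ξ o' = ξ o := by
    rw [Finset.sum_eq_single o]
    · simp
    · intro o' _ ho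
      rw [Pi.single_eq_of_ne ho]
      simp
    · intro ho
      exact absurd (Finset.mem_univ o) ho
  rw [hφ, h6] at he
  have h7 : W.mkQ (ξ o - ∑ k, (e k : ℂ) * b k) = 0 := by
    rw [map_sub, map_sum, ← he, sub_eq_zero]
    refine Finset.sum_congr rfl fun k _ => ?_
    have h8 : (e k : ℂ) * b k = e k • b k := rfl
    rw [h8, map_smul, Submodule.mkQ_apply, hb k]
  rw [Submodule.mkQ_apply, Submodule.Quotient.mk_eq_zero, Submodule.mem_span_singleton] at h7
  obtain ⟨a, ha⟩ := h7
  refine ⟨a, e, ?_⟩
  have h8 : (a : ℂ) = a • (1 : ℂ) := by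
    rw [Algebra.smul_def, mul_one]
    rfl
  rw [h8, ha]
  ring

private theorem sum_swap {m n : ℕ} {κ : Type} [Fintype κ] (G : Fin m → Fin n → κ → ℂ) :
    ∑ i, ∑ j, ∑ o, G i j o = ∑ o, ∑ i, ∑ j, G i j o :=
  (Finset.sum_congr rfl fun _ _ => Finset.sum_comm).trans Finset.sum_comm

theorem rank_fin {κ : Type} [Fintype κ] (u : κ → ℂ) (hu : AlgebraicIndependent Qbar u) (Y : ℂ)
    {m n : ℕ} (hmn : m < n) (a : Fin m → Fin n → Qbar) (c : Option κ → Fin m → Fin n → Qbar)
    (M : Matrix (Fin m) (Fin n) ℂ)
    (hM : ∀ i j, M i j = a i j + ∑ o, (c o i j : ℂ) * (o.elim Y u : ℂ))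
    (hg : ∀ (t : Fin m → Qbar) (s : Fin n → Qbar), t ≠ 0 → s ≠ 0 →
      ∑ i, ∑ j, (t i : ℂ) * M i j * (s j : ℂ) ≠ 0) :
    LinearIndependent ℂ (fun i => M i) := by
  classical
  -- the bilinear maps
  have hform : ∀ (t : Fin m → ℂ) (s : Fin n → ℂ), ∑ i, ∑ j, t i * M i j * s j =
      (∑ i, ∑ j, t i * (a i j : ℂ) * s j) +
        ∑ o : Option κ, (∑ i, ∑ j, t i * (c o i j : ℂ) * s j) * (o.elim Y u : ℂ) := by
    intro t s
    have h1 : ∀ i j, t i * M i j * s j = t i * (a i j : ℂ) * s j +
        ∑ o : Option κ, t i * (c o i j : ℂ) * s j * (o.elim Y u : ℂ) := by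
      intro i j
      rw [hM, mul_add, add_mul, Finset.mul_sum, Finset.sum_mul]
      congr 1
      refine Finset.sum_congr rfl fun o _ => ?_
      ring
    simp only [h1, Finset.sum_add_distrib]
    rw [sum_swap]
    congr 1
    simp only [Finset.sum_mul]
  let A : Option (Option κ) → Fin m → Fin n → Qbar := fun o => o.elim a c
  have hA : ∀ (t : Fin m → ℂ) (s : Fin n → ℂ), t ≠ 0 → s ≠ 0 →
      ∃ o, ∑ i, ∑ j, t i * (A o i j : ℂ) * s j ≠ 0 := by
    refine fun t s => extend_gen A ?_ t s
    intro t s ht hs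
    by_contra hall
    push Not at hall
    apply hg t s ht hs
    rw [hform]
    have h1 : ∀ o, ∑ i, ∑ j, (t i : ℂ) * (A o i j : ℂ) * (s j : ℂ) = 0 := by
      intro o
      have h2 := congrArg (fun x : Qbar => (x : ℂ)) (hall o)
      push_cast at h2
      exact h2
    have h2 : ∑ i, ∑ j, (t i : ℂ) * (a i j : ℂ) * (s j : ℂ) = 0 := h1 none
    rw [h2, zero_add]
    refine Finset.sum_eq_zero fun o _ => ?_
    have h3 : ∑ i, ∑ j, (t i : ℂ) * (c o i j : ℂ) * (s j : ℂ) = 0 := h1 (some o)
    rw [h3, zero_mul]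
  rw [Fintype.linearIndependent_iff]
  intro t₀ ht₀
  by_contra hne
  push Not at hne
  obtain ⟨i₀, hi₀⟩ := hne
  obtain ⟨t, ht⟩ : ∃ t : Fin m → ℂ, ∀ i, t i = t₀ i / t₀ i₀ := ⟨_, fun _ => rfl⟩
  have ht1 : t i₀ = 1 := by rw [ht, div_self hi₀]
  have htne : t ≠ 0 := by
    intro h
    have h1 := congrFun h i₀
    rw [ht1] at h1
    exact one_ne_zero h1
  have hrel : ∀ j, ∑ i, t i * M i j = 0 := by
    intro j
    have h1 := congrFun ht₀ j
    simp only [Finset.sum_apply, Pi.smul_apply, smul_eq_mul, Pi.zero_apply] at h1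
    have h2 : ∑ i, t i * M i j = (∑ i, t₀ i * M i j) / t₀ i₀ := by
      rw [Finset.sum_div]
      refine Finset.sum_congr rfl fun i _ => ?_
      rw [ht]
      ring
    rw [h2, h1, zero_div]
  set T : IntermediateField Qbar ℂ := IntermediateField.adjoin Qbar (Set.range t) with hT
  have htT : ∀ i, t i ∈ T := fun i => IntermediateField.subset_adjoin _ _ ⟨i, rfl⟩
  let t' : Fin m → T := fun i => ⟨t i, htT i⟩
  have hcoe : ∀ q : Qbar, ((algebraMap Qbar T q : T) : ℂ) = (q : ℂ) := fun _ => rfl
  obtain ⟨r, b, hr, hb⟩ := many_relations T (fun o : Option κ => (o.elim Y u : ℂ))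
    (fun j o => ∑ i, t' i * algebraMap Qbar T (c o i j))
    (fun j => ∑ i, t' i * algebraMap Qbar T (a i j)) (by
      intro j
      push_cast
      have h1 := hrel j
      have h2 : ∀ i, t i * M i j = t i * (a i j : ℂ) +
          ∑ o : Option κ, t i * (c o i j : ℂ) * (o.elim Y u : ℂ) := by
        intro i
        rw [hM, mul_add, Finset.mul_sum]
        congr 1
        refine Finset.sum_congr rfl fun o _ => ?_
        ring
      simp only [h2, Finset.sum_add_distrib] at h1
      rw [Finset.sum_comm] at h1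
      simp only [Finset.sum_mul]
      exact h1) (by
      intro s hs
      by_contra hsne
      have hs0 : (fun j => (s j : ℂ)) ≠ 0 := by
        intro h
        apply hsne
        funext j
        exact Subtype.ext (congrFun h j)
      have h1 : ∀ o : Option κ, ∑ i, ∑ j, t i * (c o i j : ℂ) * (s j : ℂ) = 0 := by
        intro o
        have h2 := congrArg (fun x : T => (x : ℂ)) (hs o)
        push_cast at h2
        rw [Finset.sum_comm]
        rw [← h2]
        refine Finset.sum_congr rfl fun j _ => ?_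
        rw [Finset.mul_sum]
        refine Finset.sum_congr rfl fun i _ => ?_
        show t i * (c o i j : ℂ) * (s j : ℂ) = (s j : ℂ) * (t i * (c o i j : ℂ))
        ring
      have h2 : ∑ i, ∑ j, t i * (a i j : ℂ) * (s j : ℂ) = 0 := by
        have h3 := hform t (fun j => (s j : ℂ))
        have h4 : ∑ i, ∑ j, t i * M i j * (s j : ℂ) = 0 := by
          rw [Finset.sum_comm]
          refine Finset.sum_eq_zero fun j _ => ?_
          rw [← Finset.sum_mul, hrel, zero_mul]
        rw [h4] at h3
        have h5 : ∑ o : Option κ, (∑ i, ∑ j, t i * (c o i j : ℂ) * (s j : ℂ)) *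
            (o.elim Y u : ℂ) = 0 := by
          refine Finset.sum_eq_zero fun o _ => ?_
          rw [h1 o, zero_mul]
        rw [h5, add_zero] at h3
        exact h3.symm
      obtain ⟨o, ho⟩ := hA t (fun j => (s j : ℂ)) htne hs0
      rcases o with _ | o
      · exact ho h2
      · exact ho (h1 o))
  have hm : 0 < m := i₀.pos
  refine few_generators hu (γ := {i // i ≠ i₀} ⊕ Fin r)
    (Sum.elim (fun i => t i) b) ?_ ?_
  · rw [Fintype.card_sum, Fintype.card_fin]
    rw [Fintype.card_option] at hr
    have h1 : Fintype.card {i // i ≠ i₀} = m - 1 := by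
      rw [Fintype.card_subtype_compl, Fintype.card_fin]
      simp
    rw [h1]
    omega
  · intro k
    set L := IntermediateField.adjoin Qbar
      (Set.range (Sum.elim (fun i : {i // i ≠ i₀} => t i) b)) with hL
    have hTL : T ≤ L := by
      rw [hT, IntermediateField.adjoin_le_iff]
      rintro _ ⟨i, rfl⟩
      by_cases h : i = i₀
      · rw [h, ht1]
        exact one_mem _
      · exact IntermediateField.subset_adjoin _ _ ⟨Sum.inl ⟨i, h⟩, rfl⟩
    obtain ⟨x, e, hxe⟩ := hb (some k)
    have hxe' : u k = x + ∑ k, (e k : ℂ) * b k := hxe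
    rw [hxe']
    refine add_mem (hTL x.2) (sum_mem fun k _ => mul_mem (hTL (e k).2) ?_)
    exact IntermediateField.subset_adjoin _ _ ⟨Sum.inr k, rfl⟩

end Pool.Agent.Pat7
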