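import Pool.Agent.Pat7.RankTools
import Pool.Agent.Pat7.Wald

/-!
# Pat7: half of the structural rank

Let the numbers `u k` be algebraically independent and `u i₀ * Y = P (u)`, where `P ≠ 0` is a
polynomial which does not contain the variable `i₀`. If a matrix `M = N (u) + Y * B` has the rank `ρ`
then `B` has a rank `≤ ρ` (specialise `u i₀` to `0` in `u i₀ * M`), and `N (v) + y * B` has a rank
`≤ 2 ρ` for all `v`, `y` with `v i₀ ≠ 0`.
-/

set_option autoImplicit false

namespace Pool.Agent.Pat7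

open Pool.Agent.Pat5 Matrix

theorem rank_half {κ : Type} [DecidableEq κ] {u : κ → ℂ} (hu : AlgebraicIndependent Qbar u)
    {i₀ : κ}
    {P : MvPolynomial κ Qbar} (hP : P ≠ 0) (hi₀ : i₀ ∉ P.vars) {Y : ℂ}
    (hY : u i₀ * Y = MvPolynomial.aeval u P) {m n : ℕ}
    (N : Matrix (Fin m) (Fin n) (MvPolynomial κ Qbar)) (B : Matrix (Fin m) (Fin n) Qbar)
    {v : κ → ℂ} (hv : v i₀ ≠ 0) (y : ℂ) :
    (N.map (MvPolynomial.aeval v) + y • B.map (fun q : Qbar => (q : ℂ))).rank ≤
      2 * (N.map (MvPolynomial.aeval u) + Y • B.map (fun q : Qbar => (q : ℂ))).rank := by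
  set B' : Matrix (Fin m) (Fin n) ℂ := B.map (fun q : Qbar => (q : ℂ)) with hB'
  set ρ := (N.map (MvPolynomial.aeval u) + Y • B').rank with hρ
  let N' : Matrix (Fin m) (Fin n) (MvPolynomial κ Qbar) :=
    Matrix.of fun i j => MvPolynomial.X i₀ * N i j + P * MvPolynomial.C (B i j)
  have hN' : ∀ w : κ → ℂ, N'.map (MvPolynomial.aeval w) =
      w i₀ • N.map (MvPolynomial.aeval w) + (MvPolynomial.aeval w P) • B' := by
    intro w
    ext i j
    have h : algebraMap Qbar ℂ (B i j) = (B i j : ℂ) := rfl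
    simp [N', hB', h]
  have h1 : ∀ w : κ → ℂ, (N'.map (MvPolynomial.aeval w)).rank ≤ ρ := by
    intro w
    refine (rank_spec N' hu w).trans ?_
    have h2 : N'.map (MvPolynomial.aeval u) = u i₀ • (N.map (MvPolynomial.aeval u) + Y • B') := by
      rw [hN', ← hY, smul_add, smul_smul]
    rw [h2]
    exact rank_smul_le _ _
  have hPu : MvPolynomial.aeval u P ≠ 0 := by
    intro h
    exact hP (hu (by rw [h, map_zero]))
  have h2 : B'.rank ≤ ρ := by
    have h3 := h1 (Function.update u i₀ 0)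
    have h4 : MvPolynomial.aeval (Function.update u i₀ (0 : ℂ)) P = MvPolynomial.aeval u P := by
      rw [MvPolynomial.aeval_def, MvPolynomial.aeval_def]
      refine MvPolynomial.eval₂Hom_congr' rfl ?_ rfl
      intro i hi _
      have hne : i ≠ i₀ := fun h => hi₀ (h ▸ hi)
      exact Function.update_of_ne hne _ _
    rw [hN', h4, Function.update_self, zero_smul, zero_add, rank_smul_eq hPu] at h3
    exact h3
  have h3 : N.map (MvPolynomial.aeval v) + y • B' = (v i₀)⁻¹ • N'.map (MvPolynomial.aeval v) +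
      (y - (v i₀)⁻¹ * MvPolynomial.aeval v P) • B' := by
    rw [hN', smul_add, smul_smul, smul_smul, inv_mul_cancel₀ hv, one_smul, sub_smul]
    abel
  rw [h3]
  have h4 := rank_add_le' ((v i₀)⁻¹ • N'.map (MvPolynomial.aeval v))
    ((y - (v i₀)⁻¹ * MvPolynomial.aeval v P) • B')
  have h5 := (rank_smul_le (v i₀)⁻¹ (N'.map (MvPolynomial.aeval v))).trans (h1 v)
  have h6 := (rank_smul_le (y - (v i₀)⁻¹ * MvPolynomial.aeval v P) B').trans h2
  omega

/-- A finitely supported sum over `Option (Option κ)`. -/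
theorem finsupp_split {κ : Type} [DecidableEq κ] {V : Type} [AddCommGroup V] [Module Qbar V]
    (S : Finset κ) (c : Option (Option κ) →₀ Qbar) (hS : ∀ k, c (some (some k)) ≠ 0 → k ∈ S)
    (ξ : Option (Option κ) → V) :
    c.sum (fun o q => q • ξ o) = c none • ξ none + c (some none) • ξ (some none) +
      ∑ k ∈ S, c (some (some k)) • ξ (some (some k)) := by
  have hsup : c.support ⊆ insert none (insert (some none) (S.image fun k => some (some k))) := by
    intro o ho
    rw [Finsupp.mem_support_iff] at ho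
    rcases o with _ | _ | k
    · simp
    · simp
    · simp [hS k ho]
  rw [Finsupp.sum_of_support_subset c hsup (fun o q => q • ξ o) (fun o _ => zero_smul _ _),
    Finset.sum_insert (by simp), Finset.sum_insert (by simp), Finset.sum_image (by simp)]
  abel

/-- Polynomials of degree at most one. -/
private theorem aeval_lin {κ : Type} (S : Finset κ) (a : Qbar) (c : κ → Qbar) (w : κ → ℂ) :
    MvPolynomial.aeval w (MvPolynomial.C a + ∑ k ∈ S, MvPolynomial.C (c k) * MvPolynomial.X k) =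
      (a : ℂ) + ∑ k ∈ S, (c k : ℂ) * w k := by
  rw [map_add, map_sum, MvPolynomial.aeval_C]
  congr 1
  refine Finset.sum_congr rfl fun k _ => ?_
  rw [map_mul, MvPolynomial.aeval_C, MvPolynomial.aeval_X]
  rfl

theorem half_lin {κ : Type} [DecidableEq κ] {u : κ → ℂ} (hu : AlgebraicIndependent Qbar u)
    {i₀ : κ}
    {P : MvPolynomial κ Qbar} (hP : P ≠ 0) (hi₀ : i₀ ∉ P.vars) {Y : ℂ}
    (hY : u i₀ * Y = MvPolynomial.aeval u P) {m n : ℕ} (S : Finset κ)
    (a b : Fin m → Fin n → Qbar) (c : Fin m → Fin n → κ → Qbar) (x y : ℂ) (v : κ → ℂ) :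
    (Matrix.of fun i j => (a i j : ℂ) * x + (b i j : ℂ) * y +
      ∑ k ∈ S, (c i j k : ℂ) * v k).rank ≤
      2 * (Matrix.of fun i j => (a i j : ℂ) + (b i j : ℂ) * Y +
        ∑ k ∈ S, (c i j k : ℂ) * u k).rank := by
  let N : Matrix (Fin m) (Fin n) (MvPolynomial κ Qbar) :=
    Matrix.of fun i j => MvPolynomial.C (a i j) + ∑ k ∈ S, MvPolynomial.C (c i j k) *
      MvPolynomial.X k
  have hN : ∀ (w : κ → ℂ) (y : ℂ),
      N.map (MvPolynomial.aeval w) + y • (Matrix.of b).map (fun q : Qbar => (q : ℂ)) =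
      Matrix.of fun i j => (a i j : ℂ) + (b i j : ℂ) * y + ∑ k ∈ S, (c i j k : ℂ) * w k := by
    intro w y
    ext i j
    show MvPolynomial.aeval w (MvPolynomial.C (a i j) + ∑ k ∈ S, MvPolynomial.C (c i j k) *
      MvPolynomial.X k) + y * (b i j : ℂ) = _
    rw [aeval_lin]
    show _ = (a i j : ℂ) + (b i j : ℂ) * y + ∑ k ∈ S, (c i j k : ℂ) * w k
    ring
  let D : Matrix (Fin m) (Fin n) ℂ := Matrix.of fun i j => (a i j : ℂ) +
    ∑ k ∈ S, (c i j k : ℂ) * (if k = i₀ then 1 else 0)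
  have hev : ∀ z : ℂ, ∀ᶠ s in nhdsWithin (0 : ℂ) {0}ᶜ, z + s ≠ 0 := by
    intro z
    by_cases hz : z = 0
    · filter_upwards [self_mem_nhdsWithin] with s hs
      rw [hz, zero_add]
      exact hs
    · refine Filter.Eventually.filter_mono nhdsWithin_le_nhds ?_
      have hc : Continuous fun s : ℂ => z + s := by fun_prop
      refine hc.continuousAt.eventually_ne ?_
      rwa [add_zero]
  refine rank_near _ D ((hev x).and (hev (v i₀))) ?_
  rintro s ⟨hx, hv⟩
  rw [← hN u Y]
  have h1 := rank_half hu hP hi₀ hY N (Matrix.of b)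
    (v := fun k => (v k + if k = i₀ then s else 0) / (x + s)) (by
      simpa using div_ne_zero hv hx) (y / (x + s))
  refine le_trans (le_of_eq ?_) h1
  rw [hN]
  rw [← rank_smul_eq hx (Matrix.of fun i j => (a i j : ℂ) + (b i j : ℂ) * (y / (x + s)) +
    ∑ k ∈ S, (c i j k : ℂ) * ((v k + if k = i₀ then s else 0) / (x + s)))]
  congr 1
  ext i j
  show (a i j : ℂ) * x + (b i j : ℂ) * y + ∑ k ∈ S, (c i j k : ℂ) * v k +
    s * ((a i j : ℂ) + ∑ k ∈ S, (c i j k : ℂ) * (if k = i₀ then 1 else 0)) =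
    (x + s) * ((a i j : ℂ) + (b i j : ℂ) * (y / (x + s)) +
    ∑ k ∈ S, (c i j k : ℂ) * ((v k + if k = i₀ then s else 0) / (x + s)))
  have h2 : ∀ k, (c i j k : ℂ) * ((v k + if k = i₀ then s else 0) / (x + s)) =
      ((c i j k : ℂ) * v k + s * ((c i j k : ℂ) * (if k = i₀ then 1 else 0))) / (x + s) := by
    intro k
    split_ifs <;> ring
  simp only [h2]
  rw [← Finset.sum_div, Finset.sum_add_distrib, ← Finset.mul_sum]
  field_simp
  ring

end Pool.Agent.Pat7
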