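import Pool.Agent.Pat7.TI
import Pool.Agent.Pat5.ModelIII

/-!
# Pat7: the patterns with a rational product

As `Pool/Agent/Pat6/ModelUIII.lean`, with `z 0 = q 0 / π`.
-/

set_option autoImplicit false

namespace Pool.Agent.Pat7

open Pool.Agent.Pat5 Pool.Agent.Pat6

private theorem model_III_one : ∀ T : Finset (Fin 3), 1 ∉ T.map ind := by
  decide

theorem modelV_III (T : Finset (Fin 3)) (hT : T.card ≤ 1) (F : Finset ℂ) (ε : ℝ) (hε : 0 < ε) :
    ModelV (insert 1 (T.map ind)) F ε := by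
  obtain ⟨δ₁, hδ₁, hcore⟩ := core5 (insert (Real.pi : ℂ) F) ε hε ![1, Real.pi, Real.pi⁻¹] li_pi3
  obtain ⟨δ₂, hδ₂, hlog⟩ := log_near δ₁ hδ₁
  obtain ⟨δ₃, hδ₃, hδε₃, hδ13, hnear₃⟩ := near_III ε hε
  obtain ⟨δ₄, hδ₄, hlog₄⟩ := log_near2 Real.pi δ₁ hδ₁
  obtain ⟨δ₅, hδ₅, hnear₅⟩ := near_III2 δ₁ hδ₁
  obtain ⟨δ, hδ, hd2, hd3, hd4, hd5⟩ : ∃ δ, 0 < δ ∧ δ ≤ δ₂ ∧ δ ≤ δ₃ ∧ δ ≤ δ₄ ∧ δ ≤ δ₅ :=
    ⟨min (min δ₂ δ₃) (min δ₄ δ₅), lt_min (lt_min hδ₂ hδ₃) (lt_min hδ₄ hδ₅),
      (min_le_left _ _).trans (min_le_left _ _), (min_le_left _ _).trans (min_le_right _ _),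
      (min_le_right _ _).trans (min_le_left _ _), (min_le_right _ _).trans (min_le_right _ _)⟩
  have hδε : δ ≤ ε := hd3.trans hδε₃
  have hδ1 : δ ≤ 1 := hd3.trans hδ13
  obtain ⟨t1, t2, t3, t4, t5, t6⟩ := one_lt_targets
  have hE : (0 : ℝ) < Real.exp 1 := Real.exp_pos 1
  have hpi := Real.pi_pos
  -- the rational product is so near that the quotient is near `exp 1`
  obtain ⟨δ₆, hδ₆, hδ₆δ, hquot⟩ : ∃ δ₆, 0 < δ₆ ∧ δ₆ ≤ δ ∧ ∀ B : ℝ,
      |B - Real.pi * Real.exp 1| < δ₆ → |B / Real.pi - Real.exp 1| < δ := by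
    refine ⟨δ, hδ, le_rfl, fun B hB => ?_⟩
    have h1 : B / Real.pi - Real.exp 1 = (B - Real.pi * Real.exp 1) / Real.pi := by
      field_simp
    rw [h1, abs_div, abs_of_pos hpi, div_lt_iff₀ hpi]
    nlinarith [abs_nonneg (B - Real.pi * Real.exp 1)]
  obtain ⟨q, hq, hqn', hqli⟩ := exists_rat_near ![Real.pi * Real.exp 1, Real.pi ^ Real.exp 1,
    Real.exp 1 ^ Real.exp 1, Real.pi ^ Real.pi] (by
      intro i
      fin_cases i
      · exact mul_pos Real.pi_pos hE
      · exact Real.rpow_pos_of_pos Real.pi_pos _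
      · exact Real.rpow_pos_of_pos hE _
      · exact Real.rpow_pos_of_pos Real.pi_pos _) δ₆ hδ₆
  have hqn := fun i => (hqn' i).trans_le hδ₆δ
  have hmem : ((q 0 / Real.pi : ℝ) : ℂ) ∈ KF (insert (Real.pi : ℂ) F) := by
    rw [Complex.ofReal_div, Complex.ofReal_ratCast]
    have h := (KF (insert (Real.pi : ℂ) F)).algebraMap_mem (q 0)
    rw [eq_ratCast] at h
    exact div_mem h (pi_mem_KF F)
  obtain ⟨z, hz0, hzG, hzn⟩ := exists_gen1 (insert (Real.pi : ℂ) F) (0 : Fin 6) hmem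
    ![Real.exp 1, Real.log Real.pi, Real.exp Real.pi,
    Real.pi ^ Real.exp 1, Real.exp 1 ^ Real.exp 1, Real.pi ^ Real.pi] δ hδ
  have hk : Transcendental ℚ (z 0 : ℂ) := by
    rw [hz0]
    exact tr_III (hq 0)
  have hz := hzG.ai_Q hk
  have b0' : |(q 0 : ℝ) - Real.pi * Real.exp 1| < δ₆ := hqn' 0
  have a0 : |z 0 - Real.exp 1| < δ := by
    rw [hz0]
    exact hquot _ b0'
  have a1 : |z 1 - Real.log Real.pi| < δ := hzn 1 (by decide)
  have a2 : |z 2 - Real.exp Real.pi| < δ := hzn 2 (by decide)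
  have a3 : |z 3 - Real.pi ^ Real.exp 1| < δ := hzn 3 (by decide)
  have a4 : |z 4 - Real.exp 1 ^ Real.exp 1| < δ := hzn 4 (by decide)
  have a5 : |z 5 - Real.pi ^ Real.pi| < δ := hzn 5 (by decide)
  have b0 : |(q 0 : ℝ) - Real.pi * Real.exp 1| < δ := hqn 0
  have b1 : |(q 1 : ℝ) - Real.pi ^ Real.exp 1| < δ := hqn 1
  have b2 : |(q 2 : ℝ) - Real.exp 1 ^ Real.exp 1| < δ := hqn 2
  have b3 : |(q 3 : ℝ) - Real.pi ^ Real.pi| < δ := hqn 3
  have aux : ∀ x t : ℝ, |x - t| < δ → 1 ≤ t → 0 < x := by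
    intro x t h ht
    have := (abs_lt.mp h).1
    linarith
  have hpos : ∀ i, 0 < z i := by
    intro i
    fin_cases i
    · exact aux _ _ a0 t1.le
    · exact aux _ _ a1 t3.le
    · exact aux _ _ a2 (Real.one_le_exp Real.pi_pos.le)
    · exact aux _ _ a3 t4.le
    · exact aux _ _ a4 t5.le
    · exact aux _ _ a5 t6.le
  have hq0 : (0 : ℝ) < (q 0 : ℝ) := by exact_mod_cast hq 0
  have hpq : (q 0 : ℝ) / z 0 = Real.pi := by
    rw [hz0, div_div_cancel₀ hq0.ne']
  have hSQ : Strong (q 0 / z 0) (fun o : Option {i // i ∈ T} =>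
        o.elim (z 1 + 1) fun i => arg (z 0) (q 0 / z 0) (z 1) i) ∨
      QuadHyp z (q 0 / z 0) (fun o : Option {i // i ∈ T} =>
        o.elim (z 1 + 1) fun i => arg (z 0) (q 0 / z 0) (z 1) i) := by
    rcases Nat.le_one_iff_eq_zero_or_eq_one.mp hT with h | h
    · have hT0 : T = ∅ := Finset.card_eq_zero.mp h
      subst hT0
      exact Or.inl (strong_III z hz (q 0) (hq 0))
    · obtain ⟨j, hj⟩ := Finset.card_eq_one.mp h
      subst hj
      exact Or.inr (quad_III z hz (q 0) (hq 0) j)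
  obtain ⟨f, g, hf1, hg, hfv, hfX, hTh, hLog, hΓ, hc, hgood, hMat, hF⟩ :=
    hcore hpq (dat_III z hz hpos T q hq hqli) hSQ hzG hk
      (dom_III z hz T (q 0) (hq 0) hpq _ _)
  obtain ⟨r, hr⟩ : ∃ r : Fin 3 → ℝ, ∀ i, r i = if i ∈ T then (q i.succ : ℝ) else z (gIII i) :=
    ⟨_, fun _ => rfl⟩
  have hrpos : ∀ i, 0 < r i := by
    intro i
    rw [hr]
    split_ifs
    · exact_mod_cast hq _
    · exact hpos _
  have harg : ∀ i, f (arg (z 0) (q 0 / z 0) (z 1) i) = Real.log (r i) := by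
    intro i
    by_cases h : i ∈ T
    · rw [hr, if_pos h]
      exact hfv (some ⟨i, h⟩)
    · rw [hr, if_neg h]
      exact hfX (Sum.inl ⟨i, h⟩)
  have hfl : f (z 1) = Real.log (q 0 / z 0) := by
    have h1 : f (z 1 + 1) = Real.log (q 0) := hfv none
    rw [map_add, hf1] at h1
    rw [Real.log_div hq0.ne' (hpos 0).ne']
    linarith
  have hfp : f (q 0 / z 0) = Real.log (z 2) := hfX (Sum.inr ())
  have hnr := hnear₃ (q 0) (z 0) (b0.trans_le hd3) (a0.trans_le hd3)
  have hmul : (q 0 : ℝ) / z 0 * z 0 = q 0 := div_mul_cancel₀ _ (hpos 0).ne'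
  have hr0 : |r 0 - Real.pi ^ Real.exp 1| < δ := by
    rw [hr]; split_ifs
    · exact b1
    · exact a3
  have hr1 : |r 1 - Real.exp 1 ^ Real.exp 1| < δ := by
    rw [hr]; split_ifs
    · exact b2
    · exact a4
  have hr2 : |r 2 - Real.pi ^ Real.pi| < δ := by
    rw [hr]; split_ifs
    · exact b3
    · exact a5
  have hF' := hF (by
    intro i
    fin_cases i
    · show |f 1 - 1| < δ₁
      rw [hf1]
      exact hlog _ (a0.trans_le hd2)
    · show |f Real.pi - Real.pi| < δ₁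
      rw [← hpq, hfp, hpq]
      exact hlog₄ _ (a2.trans_le hd4)
    · show |f Real.pi⁻¹ - Real.pi⁻¹| < δ₁
      have h1 : Real.pi⁻¹ = ((q 0)⁻¹ : ℚ) • z 0 := by
        rw [Rat.smul_def, ← hpq, Rat.cast_inv, inv_div]
        ring
      have h2 : f (z 0) = Real.log (r 1) := harg 1
      have h3 : f Real.pi⁻¹ = Real.log (r 1) / q 0 := by
        rw [h1, map_smul, h2, Rat.smul_def, Rat.cast_inv]
        ring
      rw [h3]
      exact hnear₅ _ _ (b0.trans_le hd5) (hr1.trans_le hd5))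
  have htz : ∀ k, Transcendental ℚ (z k) := by
    intro k h
    exact hz.transcendental k ((isAlgebraic_algebraMap_iff
      (algebraMap ℝ ℂ).injective).mpr h)
  have hdfc := udfc_III z hz hpos T q hq
  have hcard : (insert 1 (T.map ind)).card = T.card + 1 := by
    rw [Finset.card_insert_of_notMem (model_III_one T), Finset.card_map]
  rw [← hcard] at hdfc
  have hM : Mod (EE f g) (q 0 / z 0) (z 1) (insert 1 (T.map ind)) F ε := by
    refine mod_of f g (hpos 0) (div_pos hq0 (hpos 0)) hrpos hf1 hfl hg (harg 0) (harg 1)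
      (harg 2) hTh hMat ?_ ?_ ?_ ?_ (a1.trans_le hδε) ?_
      (fun a ha => hF' a (Finset.mem_insert_of_mem ha)) hΓ hc hgood hdfc
      (fun E hE => seven_III E _ _ _ hE T _ _) (far_III z (hq 0) hz) ?_
      fun b hb hs => S2_of (dat_III z hz hpos T q hq hqli) hf1 hg hfv hfX (Sum.inr ()) 0 1
        one_ne_zero (by simp) hb hs
    · intro hS
      apply hLog
      have hT0 : T = ∅ := model_III_strong T hT hS
      subst hT0
      exact strong_III z hz (q 0) (hq 0)
    · rw [hfp, Real.exp_log (hpos 2)]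
      have hx : AlgebraicIndependent ℚ ![(z 0 : ℂ), (z 2 : ℂ)] := by
        have h := hz.comp ![(0 : Fin 6), 2] (by decide)
        convert h using 1
        ext i
        fin_cases i <;> rfl
      refine ai_of_alg hx ?_
      intro i
      fin_cases i
      · have hmem : ((q 0 / z 0 : ℝ) : ℂ) ∈ IntermediateField.adjoin ℚ
            (Set.range ![((q 0 / z 0 : ℝ) : ℂ), (z 2 : ℂ)]) :=
          IntermediateField.subset_adjoin _ _ ⟨0, rfl⟩
        have hmem2 : (z 0 : ℂ) ∈ IntermediateField.adjoin ℚ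
            (Set.range ![((q 0 / z 0 : ℝ) : ℂ), (z 2 : ℂ)]) := by
          have h3 : (z 0 : ℂ) = (q 0 : ℂ) / ((q 0 / z 0 : ℝ) : ℂ) := by
            have h4 : (z 0 : ℝ) = (q 0 : ℝ) / (q 0 / z 0 : ℝ) := by
              rw [div_div_cancel₀ hq0.ne']
            have h5 := congrArg (fun x : ℝ => (x : ℂ)) h4
            simpa using h5
          rw [h3]
          refine div_mem ?_ hmem
          exact (IntermediateField.adjoin ℚ _).algebraMap_mem (q 0)
        exact isAlgebraic_algebraMap (⟨_, hmem2⟩ : IntermediateField.adjoin ℚ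
            (Set.range ![((q 0 / z 0 : ℝ) : ℂ), (z 2 : ℂ)]))
      · have hmem : (z 2 : ℂ) ∈ IntermediateField.adjoin ℚ
            (Set.range ![((q 0 / z 0 : ℝ) : ℂ), (z 2 : ℂ)]) :=
          IntermediateField.subset_adjoin _ _ ⟨1, rfl⟩
        exact isAlgebraic_algebraMap (⟨_, hmem⟩ : IntermediateField.adjoin ℚ
            (Set.range ![((q 0 / z 0 : ℝ) : ℂ), (z 2 : ℂ)]))
    · intro i hi
      rcases Finset.mem_insert.mp hi with h | h
      · subst h
        exact ⟨q 0, hmul⟩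
      · obtain ⟨j, hj, rfl⟩ := Finset.mem_map.mp h
        refine ⟨q j.succ, ?_⟩
        have : fiveR (z 0) (q 0 / z 0) r (ind j) = r j := by
          fin_cases j <;> rfl
        rw [this, hr, if_pos hj]
    · intro i hi
      rw [Finset.mem_insert, not_or] at hi
      have key : ∀ j, j ∉ T → Transcendental ℚ (r j) := by
        intro j hj
        rw [hr, if_neg hj]
        exact htz _
      have hmap : ∀ j, ind j ∉ T.map ind → j ∉ T := fun j h1 h2 =>
        h1 (Finset.mem_map_of_mem ind h2)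
      fin_cases i
      · intro h
        have h2 := transc_III (q 0) (hq 0).ne' (hz.transcendental 0)
        apply h2
        have h3 := (isAlgebraic_algebraMap_iff (R := ℚ) (A := ℂ)
          (algebraMap ℝ ℂ).injective).mpr h
        have h4 : (algebraMap ℝ ℂ) (fiveR (z 0) (q 0 / z 0) r 0) =
            (q 0 : ℂ) / (z 0 : ℂ) + (z 0 : ℂ) := by
          simp [fiveR]
        exact h4 ▸ h3
      · exact absurd rfl hi.1
      · exact key 0 (hmap 0 hi.2)
      · exact key 1 (hmap 1 hi.2)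
      · exact key 2 (hmap 2 hi.2)
    · intro i
      fin_cases i
      · exact hnr.2.2
      · change |(q 0 : ℝ) / z 0 * z 0 - Real.pi * Real.exp 1| < ε
        rw [hmul]
        exact b0.trans_le hδε
      · exact hr0.trans_le hδε
      · exact hr1.trans_le hδε
      · exact hr2.trans_le hδε
    · rw [hfp, Real.exp_log (hpos 2)]
      have h := hz.comp (![0, 2] : Fin 2 → Fin 6) (by decide)
      convert h using 1
      ext i
      fin_cases i <;> rfl
  rw [hpq] at hM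
  exact ⟨EE f g, z 1, hM⟩

end Pool.Agent.Pat7
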