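import Pool.Agent.Pat7.TII
import Pool.Agent.Pat7.TIII
import Pool.Agent.Pat6.TrueCard

/-!
# Pat7: the main theorem, with the true number `π`
-/

set_option autoImplicit false

namespace Pool.Agent.Pat7

open Pool.Agent.Pat5 Pool.Agent.Pat6

/-- Every allowed pattern is realised with the true number `π`. -/
theorem modelV_good (S : Finset (Fin 5)) (hS : S ∈ good) (F : Finset ℂ) (ε : ℝ) (hε : 0 < ε) :
    ModelV S F ε := by
  have h : (∃ T : Finset (Fin 3), S = T.map ind) ∨ S = {0} ∨ S = {0, 2} ∨ S = {0, 4} ∨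
      ∃ T : Finset (Fin 3), T.card ≤ 1 ∧ S = insert 1 (T.map ind) := by
    revert S
    decide
  rcases h with ⟨T, rfl⟩ | rfl | rfl | rfl | ⟨T, hT, rfl⟩
  · exact modelV_I T F ε hε
  · exact modelV_II_0 F ε hε
  · exact modelV_II_2 F ε hε
  · exact modelV_II_4 F ε hε
  · exact modelV_III T hT F ε hε

theorem pi_hierarchy (x : Fin 5 → ℝ) (hx : x = ![Real.pi + Real.exp 1, Real.pi * Real.exp 1,
      Real.pi ^ Real.exp 1, Real.exp 1 ^ Real.exp 1, Real.pi ^ Real.pi]) :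
    (∀ S : Finset (Fin 5), (∀ i, i ∈ S ↔ ∃ q : ℚ, x i = q) →
      S ∈ good ∧ ∀ k, Schanuel Complex.exp k → S.card ≤ k) ∧
    (IsExp Complex.exp Real.pi ∧
      ∀ i, five Complex.exp Real.pi (Real.log Real.pi) i = (x i : ℂ)) ∧
    (∀ S ∈ good, ∀ (F : Finset ℂ) (ε : ℝ), 0 < ε → ∃ (E : ℂ → ℂ) (l : ℝ), IsExp E Real.pi ∧
      E l = Real.pi ∧ Theorems E ∧ Matrices E ∧ Gel E ∧ Extra E Real.pi ∧ Schanuel E S.card ∧
      Relative E (seven E Real.pi l) ∧ (S ∈ strong → LogIndep E) ∧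
      (∀ i ∈ S, ∃ q : ℚ, five E Real.pi l i = q) ∧
      (∀ i ∉ S, Transcendental ℚ (five E Real.pi l i)) ∧
      |l - Real.log Real.pi| < ε ∧
      (∀ i, ‖five E Real.pi l i - (x i : ℂ)‖ < ε) ∧ ∀ a ∈ F, ‖E a - Complex.exp a‖ < ε) ∧
    (∀ (E : ℂ → ℂ) (l : ℝ), IsExp E Real.pi → E l = Real.pi → Real.pi * E 1 ≠ 1 → Theorems E →
      ∀ S : Finset (Fin 5), (∀ i, i ∈ S ↔ ∃ q : ℚ, five E Real.pi l i = q) →
        S ∈ good ∧ (LogIndep E → S ∈ strong) ∧ ∀ k, Schanuel E k → S.card ≤ k) := by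
  subst hx
  refine ⟨fun S hS => ⟨true_good S hS, fun k hk => true_card k hk S hS⟩,
    ⟨isExp_exp, five_true⟩, ?_, ?_⟩
  · intro S hS F ε hε
    obtain ⟨E, l, h1, h2, h3, hM, h4, h5, h6, h7, h8, h9, h10, h11, h12, h13⟩ :=
      modelV_good S hS F ε hε
    refine ⟨E, l, h1, h2, h3, hM, h8, h7, h5, h6, h4, h9, h10, h11, fun i => ?_, h13⟩
    have h := h12 i
    rw [five_true i] at h
    exact h
  · intro E l h1 h2 h3 h4 S hS
    exact ⟨converse h1 h4 h2 h3 S hS, fun h5 => converse_strong h1 h4 h5 h2 h3 S hS,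
      fun k hk => card_le h1 h4 h2 h3 hk S hS⟩

end Pool.Agent.Pat7
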