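import Pool.Agent.Pat5.Defs

/-!
# Pat7: the theorems of Waldschmidt and Roy on matrices
-/

set_option autoImplicit false

namespace Pool.Agent.Pat7

open Complex Pool.Agent.Pat5

/-- Theorems on matrices whose entries are linear combinations, with algebraic coefficients, of `1`
and logarithms of algebraic numbers, for `E` in place of the exponential function. -/
structure Matrices (E : ℂ → ℂ) : Prop where
  /-- The theorem of Roy on the structural rank (`φ` runs through the linear specialisations). -/
  half : ∀ (m n : ℕ) (M : Matrix (Fin m) (Fin n) (logSpan E)) (φ : logSpan E →ₗ[Qbar] ℂ),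
    (M.map φ).rank ≤ 2 * (M.map fun x => (x : ℂ)).rank
  /-- More than the theorem of Waldschmidt and Roy, which gives the rank `≥ m * n / (m + n)`. -/
  full : ∀ (m n : ℕ) (M : Matrix (Fin m) (Fin n) ℂ), m < n → (∀ i j, M i j ∈ logSpan E) →
    (∀ (t : Fin m → Qbar) (s : Fin n → Qbar), t ≠ 0 → s ≠ 0 →
      ∑ i, ∑ j, (t i : ℂ) * M i j * (s j : ℂ) ≠ 0) → M.rank = m

end Pool.Agent.Pat7
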