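import Pool.Agent.Pat7.Half
import Pool.Agent.Pat7.MatDef
import Pool.Agent.Pat6.MasterF

/-!
# Pat7: theorems of Waldschmidt and Roy on matrices
-/

set_option autoImplicit false

namespace Pool.Agent.Pat7

open Complex Pool.Agent.Pat5 Pool.Agent.Pat6

/-- The family `1`, `Y`, `u`. -/
noncomputable def fam {κ : Type} (Y : ℂ) (u : κ → ℂ) : Option (Option κ) → ℂ :=
  fun o => o.elim 1 (fun o => o.elim Y u)

theorem fam_range {κ : Type} (Y : ℂ) (u : κ → ℂ) :
    Set.range (fam Y u) = {1, Y} ∪ Set.range u := by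
  ext z
  constructor
  · rintro ⟨_ | _ | k, rfl⟩
    · exact Or.inl (Or.inl rfl)
    · exact Or.inl (Or.inr rfl)
    · exact Or.inr ⟨k, rfl⟩
  · rintro ((h | h) | ⟨k, rfl⟩)
    · exact ⟨none, h.symm⟩
    · exact ⟨some none, (Set.mem_singleton_iff.1 h).symm⟩
    · exact ⟨some (some k), rfl⟩

/-- The indices which occur in finitely many sums. -/
theorem exists_support {κ : Type} {m n : ℕ}
    (c : Fin m → Fin n → Option (Option κ) →₀ Qbar) :
    ∃ S : Finset κ, ∀ i j k, c i j (some (some k)) ≠ 0 → k ∈ S := by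
  classical
  let T : Finset (Option (Option κ)) :=
    Finset.univ.biUnion fun i => Finset.univ.biUnion fun j => (c i j).support
  refine ⟨T.preimage (fun k => some (some k)) (fun a _ b _ h => by simpa using h), ?_⟩
  intro i j k hk
  rw [Finset.mem_preimage, Finset.mem_biUnion]
  refine ⟨i, Finset.mem_univ i, ?_⟩
  rw [Finset.mem_biUnion]
  exact ⟨j, Finset.mem_univ j, Finsupp.mem_support_iff.2 hk⟩

theorem full_span {κ : Type} {u : κ → ℂ} (hu : AlgebraicIndependent Qbar u) (Y : ℂ)
    {m n : ℕ} (hmn : m < n) (M : Matrix (Fin m) (Fin n) ℂ)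
    (hM : ∀ i j, M i j ∈ Submodule.span Qbar ({1, Y} ∪ Set.range u))
    (hg : ∀ (t : Fin m → Qbar) (s : Fin n → Qbar), t ≠ 0 → s ≠ 0 →
      ∑ i, ∑ j, (t i : ℂ) * M i j * (s j : ℂ) ≠ 0) : M.rank = m := by
  classical
  have h1 : ∀ i j, ∃ c : Option (Option κ) →₀ Qbar, (c.sum fun o q => q • fam Y u o) = M i j := by
    intro i j
    refine Finsupp.mem_span_range_iff_exists_finsupp.1 ?_
    rw [fam_range]
    exact hM i j
  choose c hc using h1
  obtain ⟨S, hS⟩ := exists_support c
  have hli := rank_fin (fun k : S => u k) (hu.comp _ Subtype.val_injective) Y hmn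
    (fun i j => c i j none) (fun o i j => c i j (some (o.map Subtype.val))) M (by
      intro i j
      rw [← hc i j, finsupp_split S (c i j) (hS i j), Fintype.sum_option, ← Finset.sum_coe_sort S]
      show (c i j none : ℂ) * 1 + (c i j (some none) : ℂ) * Y +
        ∑ k : S, (c i j (some (some (k : κ))) : ℂ) * u k = _
      rw [mul_one, add_assoc]
      rfl) hg
  have h2 : LinearIndependent ℂ M.row := hli
  rw [h2.rank_matrix, Fintype.card_fin]

theorem half_span {κ : Type} {u : κ → ℂ} (hu : AlgebraicIndependent Qbar u)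
    {i₀ : κ} {P : MvPolynomial κ Qbar} (hP : P ≠ 0) (hi₀ : i₀ ∉ P.vars) {Y : ℂ}
    (hY : u i₀ * Y = MvPolynomial.aeval u P) (L : Submodule Qbar ℂ)
    (hL : L = Submodule.span Qbar ({1, Y} ∪ Set.range u)) {m n : ℕ}
    (M : Matrix (Fin m) (Fin n) L) (φ : L →ₗ[Qbar] ℂ) :
    (M.map φ).rank ≤ 2 * (M.map fun x => (x : ℂ)).rank := by
  classical
  have h1 : ∀ i j, ∃ c : Option (Option κ) →₀ Qbar,
      (c.sum fun o q => q • fam Y u o) = (M i j : ℂ) := by
    intro i j
    refine Finsupp.mem_span_range_iff_exists_finsupp.1 ?_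
    rw [fam_range, ← hL]
    exact (M i j).2
  choose c hc using h1
  obtain ⟨S, hS⟩ := exists_support c
  have hmem : ∀ o, fam Y u o ∈ L := by
    intro o
    rw [hL, ← fam_range]
    exact Submodule.subset_span ⟨o, rfl⟩
  let ξ : Option (Option κ) → L := fun o => ⟨fam Y u o, hmem o⟩
  have h2 : ∀ i j, M i j = (c i j).sum fun o q => q • ξ o := by
    intro i j
    apply Subtype.ext
    rw [← hc i j, Finsupp.sum, Finsupp.sum, Submodule.coe_sum]
    rfl
  have h3 := half_lin hu hP hi₀ hY S (fun i j => c i j none) (fun i j => c i j (some none))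
    (fun i j k => c i j (some (some k))) (φ (ξ none)) (φ (ξ (some none)))
    (fun k => φ (ξ (some (some k))))
  have e1 : M.map φ = Matrix.of fun i j => (c i j none : ℂ) * φ (ξ none) +
      (c i j (some none) : ℂ) * φ (ξ (some none)) +
      ∑ k ∈ S, (c i j (some (some k)) : ℂ) * φ (ξ (some (some k))) := by
    ext i j
    show φ (M i j) = _
    rw [h2 i j, finsupp_split S (c i j) (hS i j), map_add, map_add, map_sum, map_smul, map_smul]
    simp only [map_smul]
    rfl
  have e2 : (M.map fun x => (x : ℂ)) = Matrix.of fun i j => (c i j none : ℂ) +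
      (c i j (some none) : ℂ) * Y + ∑ k ∈ S, (c i j (some (some k)) : ℂ) * u k := by
    ext i j
    show (M i j : ℂ) = _
    rw [← hc i j, finsupp_split S (c i j) (hS i j)]
    show (c i j none : ℂ) * 1 + (c i j (some none) : ℂ) * Y +
        ∑ k ∈ S, (c i j (some (some (k : κ))) : ℂ) * u k = _
    rw [mul_one]
    rfl
  rw [e1, e2]
  exact h3

end Pool.Agent.Pat7
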