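import Pool.Agent.Pat6.FinalU
import Pool.Agent.Pat7.Ranks

/-!
# Pat7: the models with the true number `π`

`Mod E p l S F ε` collects the properties of the function `E` and the numbers `p`, `l` which are
constructed in `Pool/Agent/Pat6`; `ModelV S F ε` asks for a model with `p = π`.
-/

set_option autoImplicit false

namespace Pool.Agent.Pat7

open Complex Pool.Agent.Pat5 Pool.Agent.Pat6

/-- The properties of the models. -/
def Mod (E : ℂ → ℂ) (p l : ℝ) (S : Finset (Fin 5)) (F : Finset ℂ) (ε : ℝ) : Prop :=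
  IsExp E p ∧ E l = p ∧ Theorems E ∧ Matrices E ∧ (S ∈ strong → LogIndep E) ∧
    Schanuel E S.card ∧ Relative E (seven E p l) ∧ Extra E p ∧ Gel E ∧
    (∀ i ∈ S, ∃ q : ℚ, five E p l i = q) ∧ (∀ i ∉ S, Transcendental ℚ (five E p l i)) ∧
    |l - Real.log Real.pi| < ε ∧
    (∀ i, ‖five E p l i - five exp Real.pi (Real.log Real.pi) i‖ < ε) ∧
    ∀ a ∈ F, ‖E a - exp a‖ < ε

/-- There is a model with `p = π`. -/
def ModelV (S : Finset (Fin 5)) (F : Finset ℂ) (ε : ℝ) : Prop :=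
  ∃ (E : ℂ → ℂ) (l : ℝ), Mod E Real.pi l S F ε

theorem mod_of {S : Finset (Fin 5)} {F : Finset ℂ} {ε : ℝ} (f g : ℝ ≃ₗ[ℚ] ℝ) {e p l : ℝ}
    {r : Fin 3 → ℝ} {n : ℕ} {z : Fin n → ℝ} {Γ : Submodule ℚ (ℂ × ℂ)}
    (he : 0 < e) (hp : 0 < p) (hr : ∀ i, 0 < r i) (hf1 : f 1 = Real.log e)
    (hfl : f l = Real.log p) (hg : g p = Real.pi) (h0 : f (e * l) = Real.log (r 0))
    (h1 : f e = Real.log (r 1)) (h2 : f (p * l) = Real.log (r 2)) (hT : Theorems (EE f g))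
    (hMat : Matrices (EE f g))
    (hS : S ∈ strong → LogIndep (EE f g))
    (hN : AlgebraicIndependent ℚ ![(p : ℂ), ((Real.exp (f p) : ℝ) : ℂ)])
    (hrat : ∀ i ∈ S, ∃ q : ℚ, fiveR e p r i = q)
    (htr : ∀ i ∉ S, Transcendental ℚ (fiveR e p r i))
    (hlε : |l - Real.log Real.pi| < ε)
    (hε : ∀ i, |fiveR e p r i - fiveR (Real.exp 1) Real.pi trueR i| < ε)
    (hF : ∀ a ∈ F, ‖EE f g a - exp a‖ < ε)
    (hΓ : Γ ≤ gr f g) (hc : coords Γ ⊆ Kc z) (hgood : GoodStep (Kc z) Γ (gr f g))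
    (hdfc : Dfc ⊥ Γ S.card)
    (hB : ∀ E : ℂ → ℂ, E 1 = e → seven E p l = Γ.map (LinearMap.fst ℚ ℂ ℂ))
    (hFar : Far e p l)
    (hN2 : AlgebraicIndependent ℚ ![(e : ℂ), ((Real.exp (f p) : ℝ) : ℂ)])
    (hS2 : ∀ b ∈ Γ.map (LinearMap.fst ℚ ℂ ℂ), b ∈ Submodule.span Qbar ({1} ∪
      {z | z ∈ Γ.map (LinearMap.fst ℚ ℂ ℂ) ∧ IsAlgebraic ℚ (EE f g z)}) →
      ∃ r s : ℚ, IsAlgebraic ℚ (EE f g (b - r - s * p))) :
    Mod (EE f g) p l S F ε := by
  have hfive : ∀ i, five (EE f g) p l i = ((fiveR e p r i : ℝ) : ℂ) := by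
    intro i
    rw [five_EE f g p l he hf1, h0, h1, h2, Real.exp_log (hr 0), Real.exp_log (hr 1),
      Real.exp_log (hr 2)]
    rfl
  have hE1 : EE f g 1 = (e : ℂ) := by
    have := EE_ofReal f g 1
    rw [hf1, Real.exp_log he, ofReal_one] at this
    exact this
  have hexp := EE_isExp f g hp hg
  have hrel := relative_of (fun x h => mem_Kc_of_isAlgebraic h) hΓ hc hgood (hB _ hE1)
  have hNE : AlgebraicIndependent ℚ ![(p : ℂ), EE f g p] := by
    rw [EE_ofReal]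
    exact hN
  have hNE2 : AlgebraicIndependent ℚ ![EE f g 1, EE f g p] := by
    rw [EE_ofReal, hE1]
    exact hN2
  have hG : Gel (EE f g) := by
    refine gel_of hexp hrel (Submodule.subset_span (by simp)) (Submodule.subset_span (by simp))
      hNE2 ?_
    rw [hB _ hE1]
    exact hS2
  refine ⟨hexp, ?_, hT, hMat, hS, schanuel_of (hdfc.step bot_le hc hgood),
    hrel, extra_of hexp hE1 hNE (hN2.transcendental 0) hrel hFar, hG, ?_, ?_, hlε, ?_, hF⟩
  · rw [EE_ofReal, hfl, Real.exp_log hp]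
  · intro i hi
    obtain ⟨q, hq⟩ := hrat i hi
    refine ⟨q, ?_⟩
    rw [hfive, hq, ofReal_ratCast]
  · intro i hi h
    refine htr i hi ?_
    rw [hfive] at h
    exact (isAlgebraic_algebraMap_iff (algebraMap ℝ ℂ).injective).mp h
  · intro i
    rw [hfive, five_true, ← ofReal_sub, norm_real, Real.norm_eq_abs]
    exact hε i

end Pool.Agent.Pat7
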