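import Mathlib

/-!
# Pat7: continuity estimates
-/

set_option autoImplicit false

namespace Pool.Agent.Pat7

open Filter Topology

private theorem exists_square {P : ℝ × ℝ → Prop} {a b : ℝ}
    (h : ∀ᶠ x in 𝓝 (a, b), P x) : ∃ δ, 0 < δ ∧ ∀ x y : ℝ, |x - a| < δ → |y - b| < δ →
      P (x, y) := by
  obtain ⟨δ, hδ, h⟩ := Metric.eventually_nhds_iff.mp h
  refine ⟨δ, hδ, fun x y hx hy => h ?_⟩
  rw [Prod.dist_eq, max_lt_iff]
  exact ⟨by simpa [Real.dist_eq] using hx, by simpa [Real.dist_eq] using hy⟩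

private theorem exists_cube {P : ℝ × ℝ × ℝ → Prop} {a b c : ℝ}
    (h : ∀ᶠ x in 𝓝 (a, b, c), P x) : ∃ δ, 0 < δ ∧ ∀ x y z : ℝ, |x - a| < δ → |y - b| < δ →
      |z - c| < δ → P (x, y, z) := by
  obtain ⟨δ, hδ, h⟩ := Metric.eventually_nhds_iff.mp h
  refine ⟨δ, hδ, fun x y z hx hy hz => h ?_⟩
  rw [Prod.dist_eq, max_lt_iff, Prod.dist_eq, max_lt_iff]
  exact ⟨by simpa [Real.dist_eq] using hx, by simpa [Real.dist_eq] using hy,
    by simpa [Real.dist_eq] using hz⟩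

private theorem near_of_continuousAt {X : Type*} [TopologicalSpace X] {f : X → ℝ} {x₀ : X}
    (hf : ContinuousAt f x₀) {v ε : ℝ} (hv : f x₀ = v) (hε : 0 < ε) :
    ∀ᶠ x in 𝓝 x₀, |f x - v| < ε := by
  subst hv
  have := hf.eventually (Metric.ball_mem_nhds (f x₀) hε)
  filter_upwards [this] with x hx
  simpa [Metric.mem_ball, Real.dist_eq] using hx

/-- Numbers near `exp t` have logarithms near `t`. -/
theorem log_near2 (t δ : ℝ) (hδ : 0 < δ) :
    ∃ δ' : ℝ, 0 < δ' ∧ ∀ e : ℝ, |e - Real.exp t| < δ' → |Real.log e - t| < δ := by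
  have h := Real.continuousAt_log (Real.exp_pos t).ne'
  obtain ⟨δ', h1, h2⟩ := Metric.continuousAt_iff.1 h δ hδ
  refine ⟨δ', h1, fun e he => ?_⟩
  have h3 := h2 (x := e) (by rwa [Real.dist_eq])
  rwa [Real.dist_eq, Real.log_exp] at h3

theorem log_ee : Real.log (Real.exp 1 ^ Real.exp 1) = Real.exp 1 := by
  rw [Real.log_rpow (Real.exp_pos 1), Real.log_exp, mul_one]

theorem near_II2 (ε : ℝ) (hε : 0 < ε) : ∃ δ, 0 < δ ∧ ∀ A e r : ℝ,
    |A - (Real.pi + Real.exp 1)| < δ → |e - Real.exp 1| < δ →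
    |r - Real.exp 1 ^ Real.exp 1| < δ → |A * Real.log e - Real.log r - Real.pi| < ε := by
  have hE : Real.exp 1 ≠ 0 := (Real.exp_pos 1).ne'
  have hEE : Real.exp 1 ^ Real.exp 1 ≠ 0 := (Real.rpow_pos_of_pos (Real.exp_pos 1) _).ne'
  have h1 : ContinuousAt (fun x : ℝ × ℝ × ℝ => x.1 * Real.log x.2.1 - Real.log x.2.2)
      (Real.pi + Real.exp 1, Real.exp 1, Real.exp 1 ^ Real.exp 1) := by
    refine ContinuousAt.sub (ContinuousAt.mul (by fun_prop) ?_) ?_
    · exact ContinuousAt.log (by fun_prop) hE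
    · exact ContinuousAt.log (by fun_prop) hEE
  have hv : (Real.pi + Real.exp 1) * Real.log (Real.exp 1) -
      Real.log (Real.exp 1 ^ Real.exp 1) = Real.pi := by
    rw [log_ee, Real.log_exp]
    ring
  obtain ⟨δ, hδ, h⟩ := exists_cube (near_of_continuousAt h1 hv hε)
  exact ⟨δ, hδ, fun A e r hA he hr => h A e r hA he hr⟩

theorem near_III2 (ε : ℝ) (hε : 0 < ε) : ∃ δ, 0 < δ ∧ ∀ B r : ℝ,
    |B - Real.pi * Real.exp 1| < δ → |r - Real.exp 1 ^ Real.exp 1| < δ →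
      |Real.log r / B - Real.pi⁻¹| < ε := by
  have hB : Real.pi * Real.exp 1 ≠ 0 := (mul_pos Real.pi_pos (Real.exp_pos 1)).ne'
  have hEE : Real.exp 1 ^ Real.exp 1 ≠ 0 := (Real.rpow_pos_of_pos (Real.exp_pos 1) _).ne'
  have h1 : ContinuousAt (fun x : ℝ × ℝ => Real.log x.2 / x.1)
      (Real.pi * Real.exp 1, Real.exp 1 ^ Real.exp 1) := by
    refine ContinuousAt.div ?_ (by fun_prop) hB
    exact ContinuousAt.log (by fun_prop) hEE
  have hv : Real.log (Real.exp 1 ^ Real.exp 1) / (Real.pi * Real.exp 1) = Real.pi⁻¹ := by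
    rw [log_ee, mul_comm, ← div_div, div_self (Real.exp_pos 1).ne', one_div]
  obtain ⟨δ, hδ, h⟩ := exists_square (near_of_continuousAt h1 hv hε)
  exact ⟨δ, hδ, fun B r hB hr => h B r hB hr⟩

end Pool.Agent.Pat7
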