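import Pool.Agent.Pat6.Defs

/-!
# Pat7: closeness of `EE f g` and `exp` on a finite set, with prescribed numbers

As `near_num` (`Pool/Agent/Pat6/NearNum.lean`), but the numbers `b i` (real parts) and `c i`
(imaginary parts) are given in advance.
-/

set_option autoImplicit false

namespace Pool.Agent.Pat7

open Complex Pool.Agent.Pat5 Pool.Agent.Pat6

/-- Linear maps which move a spanning family a little move a finite subset of the span a little. -/
private theorem near_bound {ι : Type} [Fintype ι] (y : ι → ℝ) (T : Finset ℝ)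
    (hT : ∀ u ∈ T, u ∈ Submodule.span ℚ (Set.range y)) :
    ∃ M : ℝ, 0 ≤ M ∧ ∀ (f : ℝ ≃ₗ[ℚ] ℝ) (δ : ℝ), 0 < δ → (∀ i, |f (y i) - y i| < δ) →
      ∀ u ∈ T, |f u - u| ≤ M * δ := by
  classical
  have h1 : ∀ u : ℝ, ∃ c : ι → ℚ, u ∈ T → ∑ i, c i • y i = u := by
    intro u
    by_cases hu : u ∈ T
    · obtain ⟨c, hc⟩ := (Submodule.mem_span_range_iff_exists_fun ℚ).1 (hT u hu)
      exact ⟨c, fun _ => hc⟩
    · exact ⟨0, fun h => absurd h hu⟩
  choose c hc using h1
  refine ⟨∑ u ∈ T, ∑ i, |(c u i : ℝ)|, Finset.sum_nonneg fun u _ => Finset.sum_nonneg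
    fun i _ => abs_nonneg _, fun f δ hδ hf u hu => ?_⟩
  have h2 : f u - u = ∑ i, (c u i : ℝ) * (f (y i) - y i) := by
    have h3 : f u = ∑ i, c u i • f (y i) := by
      conv_lhs => rw [← hc u hu]
      rw [map_sum]
      exact Finset.sum_congr rfl fun i _ => map_smul f (c u i) (y i)
    have h4 : f u - u = ∑ i, c u i • f (y i) - ∑ i, c u i • y i := by rw [h3, hc u hu]
    rw [h4, ← Finset.sum_sub_distrib]
    refine Finset.sum_congr rfl fun i _ => ?_
    rw [Rat.smul_def, Rat.smul_def]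
    ring
  rw [h2]
  calc |∑ i, (c u i : ℝ) * (f (y i) - y i)| ≤ ∑ i, |(c u i : ℝ) * (f (y i) - y i)| :=
        Finset.abs_sum_le_sum_abs _ _
    _ ≤ ∑ i, |(c u i : ℝ)| * δ := by
        refine Finset.sum_le_sum fun i _ => ?_
        rw [abs_mul]
        exact mul_le_mul_of_nonneg_left (hf i).le (abs_nonneg _)
    _ = (∑ i, |(c u i : ℝ)|) * δ := (Finset.sum_mul _ _ _).symm
    _ ≤ (∑ u ∈ T, ∑ i, |(c u i : ℝ)|) * δ := by
        refine mul_le_mul_of_nonneg_right ?_ hδ.le
        exact Finset.single_le_sum (f := fun u => ∑ i, |(c u i : ℝ)|)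
          (fun u _ => Finset.sum_nonneg fun i _ => abs_nonneg _) hu

/-- A basis of the span of a linearly independent family and a finite set, which contains the
family. -/
private theorem basis_ext {m : ℕ} (b : Fin m → ℝ) (hb : LinearIndependent ℚ b) (T : Finset ℝ) :
    ∃ (r : ℕ) (x : Fin r → ℝ), LinearIndependent ℚ (Sum.elim b x) ∧ (∀ i, x i ∈ T) ∧
    ∀ u ∈ T, u ∈ Submodule.span ℚ (Set.range (Sum.elim b x)) := by
  classical
  have h1 : LinearIndepOn ℚ id (Set.range b) := hb.linearIndepOn_id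
  obtain ⟨c, hct, hbc, hspan, hli⟩ := exists_linearIndepOn_id_extension h1
    (Set.subset_union_left (s := Set.range b) (t := (T : Set ℝ)))
  have hcf : (c \ Set.range b).Finite := by
    refine (T.finite_toSet).subset ?_
    rintro u ⟨hu, hu'⟩
    rcases hct hu with h | h
    · exact absurd h hu'
    · exact h
  set B : Finset ℝ := hcf.toFinset with hB
  have hmB : ∀ u, u ∈ B ↔ u ∈ c ∧ u ∉ Set.range b := fun u => by simp [hB]
  let e := B.equivFin.symm
  have hx : ∀ i, ((e i : B) : ℝ) ∈ c ∧ ((e i : B) : ℝ) ∉ Set.range b := fun i =>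
    (hmB _).1 (e i).2
  refine ⟨B.card, fun i => ((e i : B) : ℝ), ?_, ?_, ?_⟩
  · have h2 : LinearIndependent ℚ (fun u : c => (u : ℝ)) := hli
    have h3 : ∀ o : Fin m ⊕ Fin B.card,
        (Sum.elim b (fun i => ((e i : B) : ℝ)) o) ∈ c := by
      rintro (i | i)
      · exact hbc ⟨i, rfl⟩
      · exact (hx i).1
    have h5 := h2.comp (fun o : Fin m ⊕ Fin B.card => (⟨_, h3 o⟩ : c)) (by
      rintro (i | i) (j | j) h
      · have h4 : b i = b j := congrArg (fun z : c => (z : ℝ)) h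
        rw [hb.injective h4]
      · exact absurd ⟨i, congrArg (fun z : c => (z : ℝ)) h⟩ (hx j).2
      · exact absurd ⟨j, (congrArg (fun z : c => (z : ℝ)) h).symm⟩ (hx i).2
      · have h4 : ((e i : B) : ℝ) = ((e j : B) : ℝ) := congrArg (fun z : c => (z : ℝ)) h
        rw [e.injective (Subtype.ext h4)])
    exact h5
  · intro i
    rcases hct (hx i).1 with h | h
    · exact absurd h (hx i).2
    · exact h
  · intro u hu
    refine Submodule.span_mono ?_ (hspan (Set.mem_union_right _ hu))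
    intro v hv
    by_cases h1v : v ∈ Set.range b
    · obtain ⟨i, hi⟩ := h1v
      exact ⟨Sum.inl i, hi⟩
    · refine ⟨Sum.inr (e.symm ⟨v, (hmB v).2 ⟨hv, h1v⟩⟩), ?_⟩
      simp

/-- Uniform continuity of `exp` at finitely many points. -/
private theorem exp_near (F : Finset ℂ) (ε : ℝ) (hε : 0 < ε) : ∃ η, 0 < η ∧
    ∀ a ∈ F, ∀ w : ℂ, ‖w‖ < η → ‖exp (a + w) - exp a‖ < ε := by
  have h1 : ∀ᶠ w : ℂ in nhds 0, ∀ a ∈ F, ‖exp (a + w) - exp a‖ < ε := by
    rw [Filter.eventually_all_finset]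
    intro a _
    have h2 : Continuous fun w : ℂ => ‖exp (a + w) - exp a‖ := by fun_prop
    have h3 := h2.continuousAt (x := 0)
    refine h3.eventually_lt continuousAt_const ?_
    simpa using hε
  obtain ⟨η, hη, h⟩ := Metric.eventually_nhds_iff.1 h1
  refine ⟨η, hη, fun a ha w hw => h ?_ a ha⟩
  simpa [dist_eq_norm] using hw

theorem near_num2 (F : Finset ℂ) (ε : ℝ) (hε : 0 < ε) {m m' : ℕ} (b : Fin m → ℝ)
    (hb : LinearIndependent ℚ b) (c : Fin m' → ℝ) (hc : LinearIndependent ℚ c) :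
    ∃ (r s : ℕ) (x : Fin r → ℝ) (y : Fin s → ℝ) (δ : ℝ), 0 < δ ∧
      LinearIndependent ℚ (Sum.elim b x) ∧ LinearIndependent ℚ (Sum.elim c y) ∧
      (∀ i, ∃ a ∈ F, x i = a.re) ∧ (∀ i, ∃ a ∈ F, y i = a.im) ∧
      ∀ f g : ℝ ≃ₗ[ℚ] ℝ, (∀ i, |f (b i) - b i| < δ) → (∀ i, |f (x i) - x i| < δ) →
        (∀ i, |g (c i) - c i| < δ) → (∀ i, |g (y i) - y i| < δ) →
        ∀ a ∈ F, ‖EE f g a - exp a‖ < ε := by
  classical
  obtain ⟨r, x, hx, hxT, hxs⟩ := basis_ext b hb (F.image fun a => a.re)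
  obtain ⟨s, y, hy, hyT, hys⟩ := basis_ext c hc (F.image fun a => a.im)
  obtain ⟨M, hM, hMb⟩ := near_bound _ _ hxs
  obtain ⟨M', hM', hMb'⟩ := near_bound _ _ hys
  obtain ⟨η, hη, hexp⟩ := exp_near F ε hε
  have hpos : 0 < M + M' + 1 := by positivity
  have hδ : 0 < η / (M + M' + 1) := by positivity
  refine ⟨r, s, x, y, η / (M + M' + 1), hδ, hx, hy, ?_, ?_, ?_⟩
  · intro i
    obtain ⟨a, ha, hai⟩ := Finset.mem_image.1 (hxT i)
    exact ⟨a, ha, hai.symm⟩
  · intro i
    obtain ⟨a, ha, hai⟩ := Finset.mem_image.1 (hyT i)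
    exact ⟨a, ha, hai.symm⟩
  · intro f g hfb hfx hgc hgy a ha
    have h1 : |f a.re - a.re| ≤ M * (η / (M + M' + 1)) := by
      refine hMb f _ hδ ?_ _ (Finset.mem_image_of_mem _ ha)
      rintro (i | i)
      · exact hfb i
      · exact hfx i
    have h2 : |g a.im - a.im| ≤ M' * (η / (M + M' + 1)) := by
      refine hMb' g _ hδ ?_ _ (Finset.mem_image_of_mem _ ha)
      rintro (i | i)
      · exact hgc i
      · exact hgy i
    have h3 : EE f g a =
        exp (a + (((f a.re - a.re : ℝ) : ℂ) + ((g a.im - a.im : ℝ) : ℂ) * I)) := by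
      rw [EE_eq]
      congr 1
      conv_rhs => rw [← re_add_im a]
      push_cast
      simp only [add_re, ofReal_re, mul_re, I_re, mul_zero, ofReal_im, I_im, mul_one, sub_self,
        add_zero, add_im, mul_im, zero_add]
      ring
    rw [h3]
    refine hexp a ha _ ?_
    have h4 : ‖((f a.re - a.re : ℝ) : ℂ) + ((g a.im - a.im : ℝ) : ℂ) * I‖ ≤
        |f a.re - a.re| + |g a.im - a.im| := by
      refine (norm_add_le _ _).trans ?_
      rw [norm_mul, norm_I, mul_one, norm_real, norm_real, Real.norm_eq_abs, Real.norm_eq_abs]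
    have h5 : (M + M') * (η / (M + M' + 1)) < η := by
      rw [← mul_div_assoc, div_lt_iff₀ hpos]
      nlinarith
    linarith

end Pool.Agent.Pat7
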