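import Pool.Agent.Pat5.Defs

/-!
# Pat7: ranks of matrices

Submatrices with nonzero determinant, specialisation of algebraically independent numbers.
-/

set_option autoImplicit false

namespace Pool.Agent.Pat7

open Pool.Agent.Pat5 Matrix

variable {m n : ℕ}

theorem rank_add_le' (A B : Matrix (Fin m) (Fin n) ℂ) : (A + B).rank ≤ A.rank + B.rank := by
  rw [Matrix.rank, Matrix.rank, Matrix.rank, Matrix.mulVecLin_add]
  refine le_trans (Submodule.finrank_mono ?_) (Submodule.finrank_add_le_finrank_add_finrank _ _)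
  rintro _ ⟨x, rfl⟩
  exact Submodule.add_mem_sup ⟨x, rfl⟩ ⟨x, rfl⟩

theorem rank_smul_le (c : ℂ) (A : Matrix (Fin m) (Fin n) ℂ) : (c • A).rank ≤ A.rank := by
  have h : c • A = A * (c • (1 : Matrix (Fin n) (Fin n) ℂ)) := by
    rw [Matrix.mul_smul, Matrix.mul_one]
  rw [h]
  exact rank_mul_le_left _ _

theorem rank_smul_eq {c : ℂ} (hc : c ≠ 0) (A : Matrix (Fin m) (Fin n) ℂ) :
    (c • A).rank = A.rank := by
  refine le_antisymm (rank_smul_le c A) ?_
  have h := rank_smul_le c⁻¹ (c • A)
  rwa [smul_smul, inv_mul_cancel₀ hc, one_smul] at h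

private theorem exists_rows {ι κ : Type} [Fintype ι] [Fintype κ] (A : Matrix ι κ ℂ) :
    ∃ f : Fin A.rank → ι, LinearIndependent ℂ (fun i => A (f i)) := by
  rw [rank_eq_finrank_span_row]
  obtain ⟨f, hf, -, hli⟩ := Submodule.exists_fun_fin_finrank_span_eq ℂ (Set.range A.row)
  choose g hg using hf
  refine ⟨g, ?_⟩
  have h : (fun i => A (g i)) = f := funext hg
  rw [h]
  exact hli

private theorem exists_rows' {ι κ : Type} [Fintype ι] [Fintype κ] (A : Matrix ι κ ℂ) {k : ℕ}
    (hk : A.rank = k) : ∃ f : Fin k → ι, LinearIndependent ℂ (fun i => A (f i)) := by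
  subst hk
  exact exists_rows A

theorem exists_det (A : Matrix (Fin m) (Fin n) ℂ) :
    ∃ (f : Fin A.rank → Fin m) (g : Fin A.rank → Fin n), (A.submatrix f g).det ≠ 0 := by
  obtain ⟨f, hf⟩ := exists_rows A
  have h1 : (A.submatrix f id)ᵀ.rank = A.rank := by
    rw [rank_transpose]
    have h2 : LinearIndependent ℂ (A.submatrix f id).row := hf
    rw [h2.rank_matrix, Fintype.card_fin]
  obtain ⟨g, hg⟩ := exists_rows' (A.submatrix f id)ᵀ h1
  refine ⟨f, g, ?_⟩
  have h2 : LinearIndependent ℂ ((A.submatrix f g)ᵀ).row := hg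
  rw [linearIndependent_rows_iff_isUnit, isUnit_iff_isUnit_det, det_transpose] at h2
  exact h2.ne_zero

theorem le_rank_of_det {A : Matrix (Fin m) (Fin n) ℂ} {k : ℕ} (f : Fin k → Fin m)
    (g : Fin k → Fin n) (h : (A.submatrix f g).det ≠ 0) : k ≤ A.rank := by
  have h1 := rank_submatrix_le A f g
  rwa [rank_of_det_ne_zero h, Fintype.card_fin] at h1

/-- Specialisation does not increase the rank. -/
theorem rank_spec {σ : Type} (N : Matrix (Fin m) (Fin n) (MvPolynomial σ Qbar)) {u : σ → ℂ}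
    (hu : AlgebraicIndependent Qbar u) (v : σ → ℂ) :
    (N.map (MvPolynomial.aeval v)).rank ≤ (N.map (MvPolynomial.aeval u)).rank := by
  obtain ⟨f, g, h⟩ := exists_det (N.map (MvPolynomial.aeval v))
  refine le_rank_of_det f g ?_
  have key : ∀ w : σ → ℂ, ((N.map (MvPolynomial.aeval w)).submatrix f g).det =
      MvPolynomial.aeval w (N.submatrix f g).det := by
    intro w
    rw [AlgHom.map_det]
    rfl
  rw [key] at h ⊢
  intro h0
  have h1 : (N.submatrix f g).det = 0 := by
    refine hu ?_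
    rw [h0, map_zero]
  rw [h1, map_zero] at h
  exact h rfl

/-- The rank of a family of matrices on a line is lower semicontinuous. -/
theorem rank_near (A D : Matrix (Fin m) (Fin n) ℂ) {k : ℕ} {P : ℂ → Prop}
    (hP : ∀ᶠ s in nhdsWithin (0 : ℂ) {0}ᶜ, P s) (h : ∀ s, P s → (A + s • D).rank ≤ k) :
    A.rank ≤ k := by
  obtain ⟨f, g, hfg⟩ := exists_det A
  have hc : Continuous fun s : ℂ => ((A + s • D).submatrix f g).det := by
    refine Continuous.matrix_det ?_
    refine Continuous.matrix_submatrix ?_ f g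
    fun_prop
  have h1 : ∀ᶠ s in nhdsWithin (0 : ℂ) {0}ᶜ, ((A + s • D).submatrix f g).det ≠ 0 := by
    refine Filter.Eventually.filter_mono nhdsWithin_le_nhds ?_
    refine hc.continuousAt.eventually_ne ?_
    simpa using hfg
  obtain ⟨s, hs1, hs2⟩ := (hP.and h1).exists
  exact (le_rank_of_det f g hs2).trans (h s hs1)

end Pool.Agent.Pat7
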