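import Pool.Agent.Pat7.Mod
import Pool.Agent.Pat7.Gen
import Pool.Agent.Pat7.Dom
import Pool.Agent.Pat7.Near

/-!
# Pat7: the patterns without a rational sum or product

As `Pool/Agent/Pat6/ModelUI.lean`, with `z 1 = π`.
-/

set_option autoImplicit false

namespace Pool.Agent.Pat7

open Pool.Agent.Pat5 Pool.Agent.Pat6

private theorem fiveR_ind (e p : ℝ) (r : Fin 3 → ℝ) (j : Fin 3) :
    fiveR e p r (ind j) = r j := by
  fin_cases j <;> rfl

private theorem cases_five (i : Fin 5) : i = 0 ∨ i = 1 ∨ ∃ j, i = ind j := by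
  revert i
  decide

private theorem strong_ne : ∀ T : Finset (Fin 3), T.map ind ∈ strong → T ≠ Finset.univ := by
  decide

private theorem transcendental_real {x : ℝ} (h : Transcendental ℚ (x : ℂ)) :
    Transcendental ℚ x :=
  (transcendental_algebraMap_iff (R := ℚ) (S := ℝ) (A := ℂ)
    (algebraMap ℝ ℂ).injective).mp h

theorem pi_mem_KF (F : Finset ℂ) : (Real.pi : ℂ) ∈ KF (insert (Real.pi : ℂ) F) := by
  have h := re_mem_KF (Finset.mem_insert_self (Real.pi : ℂ) F)
  rwa [Complex.ofReal_re] at h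

theorem modelV_I (T : Finset (Fin 3)) (F : Finset ℂ) (ε : ℝ) (hε : 0 < ε) :
    ModelV (T.map ind) F ε := by
  obtain ⟨δ₁, hδ₁, hcore⟩ := core5 (insert (Real.pi : ℂ) F) ε hε ![1, Real.pi] li_pi2
  obtain ⟨δ₂, hδ₂, hlog⟩ := log_near δ₁ hδ₁
  obtain ⟨δ₃, hδ₃, hδε₃, hδ13, hnear₃⟩ := near_I ε hε
  obtain ⟨δ₄, hδ₄, hlog₄⟩ := log_near2 Real.pi δ₁ hδ₁
  obtain ⟨δ, hδ, hd2, hd3, hd4⟩ : ∃ δ, 0 < δ ∧ δ ≤ δ₂ ∧ δ ≤ δ₃ ∧ δ ≤ δ₄ :=
    ⟨min δ₂ (min δ₃ δ₄), lt_min hδ₂ (lt_min hδ₃ hδ₄), min_le_left _ _,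
      (min_le_right _ _).trans (min_le_left _ _), (min_le_right _ _).trans (min_le_right _ _)⟩
  have hδε : δ ≤ ε := hd3.trans hδε₃
  have hδ1 : δ ≤ 1 := hd3.trans hδ13
  obtain ⟨z, hzp, hzG, hzt⟩ := exists_gen1 (insert (Real.pi : ℂ) F) (1 : Fin 7) (pi_mem_KF F)
    ![Real.exp 1, Real.pi, Real.log Real.pi, Real.exp Real.pi, trueR 0, trueR 1, trueR 2] δ hδ
  have hk : Transcendental ℚ (z 1 : ℂ) := by
    rw [hzp]
    exact tr_pi
  have hz := hzG.ai_Q hk
  obtain ⟨q, hq, hqt, hli⟩ := exists_rat_near trueR trueR_pos δ hδ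
  obtain ⟨t0, t1, t2, t3, t4, t5⟩ := one_lt_targets
  have hz0 : |z 0 - Real.exp 1| < δ := hzt 0 (by decide)
  have hz1 : |z 1 - Real.pi| < δ := by
    rw [hzp, sub_self, abs_zero]
    exact hδ
  have hz2 : |z 2 - Real.log Real.pi| < δ := hzt 2 (by decide)
  have hz3 : |z 3 - Real.exp Real.pi| < δ := hzt 3 (by decide)
  have hz4 : |z 4 - trueR 0| < δ := hzt 4 (by decide)
  have hz5 : |z 5 - trueR 1| < δ := hzt 5 (by decide)
  have hz6 : |z 6 - trueR 2| < δ := hzt 6 (by decide)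
  have hpos : ∀ i, 0 < z i := by
    have key : ∀ x t : ℝ, |x - t| < δ → 1 ≤ t → 0 < x := by
      intro x t h1 h2
      have := (abs_lt.mp h1).1
      linarith
    intro i
    fin_cases i
    · exact key _ _ hz0 t0.le
    · exact key _ _ hz1 t1.le
    · exact key _ _ hz2 t2.le
    · exact key _ _ hz3 (Real.one_le_exp Real.pi_pos.le)
    · exact key _ _ hz4 t3.le
    · exact key _ _ hz5 t4.le
    · exact key _ _ hz6 t5.le
  have D := dat_I z hz hpos T q hq hli
  have hsq : Strong (z 1) (fun i : {i // i ∈ T} => arg (z 0) (z 1) (z 2) i) ∨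
      QuadHyp z (z 1) (fun i : {i // i ∈ T} => arg (z 0) (z 1) (z 2) i) := by
    by_cases hT : T = Finset.univ
    · exact Or.inr (quad_I z hz T hT)
    · exact Or.inl (strong_I z hz T hT)
  obtain ⟨f, g, hf1, hgp, hfv, hfX, hTh, hLI, hΓ, hc, hgood, hMat, hF⟩ :=
    hcore hzp D hsq hzG hk (dom_I z hz hzp T _ _)
  set r : Fin 3 → ℝ := fun i => if i ∈ T then (q i : ℝ) else z (gI i) with hr
  have hr1 : ∀ i, i ∈ T → r i = q i := fun i h => if_pos h
  have hr2 : ∀ i, i ∉ T → r i = z (gI i) := fun i h => if_neg h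
  have hfa : ∀ i, f (arg (z 0) (z 1) (z 2) i) = Real.log (r i) := by
    intro i
    by_cases h : i ∈ T
    · rw [hr1 i h]
      exact hfv ⟨i, h⟩
    · rw [hr2 i h]
      exact hfX (Sum.inl ⟨i, h⟩)
  have hfl : f (z 2) = Real.log (z 1) := hfX (Sum.inr 0)
  have hfp : f (z 1) = Real.log (z 3) := hfX (Sum.inr 1)
  have hF' := hF (by
    intro i
    fin_cases i
    · show |f 1 - 1| < δ₁
      rw [hf1]
      exact hlog _ (hz0.trans_le hd2)
    · show |f Real.pi - Real.pi| < δ₁
      rw [← hzp, hfp, hzp]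
      exact hlog₄ _ (hz3.trans_le hd4))
  have h01 : AlgebraicIndependent ℚ ![(z 0 : ℂ), (z 1 : ℂ)] := by
    have h := hz.comp (![0, 1] : Fin 2 → Fin 7) (by decide)
    convert h using 1
    ext i
    fin_cases i <;> rfl
  have hrt : ∀ j, |r j - trueR j| < δ := by
    intro j
    by_cases h : j ∈ T
    · rw [hr1 j h]
      exact hqt j
    · rw [hr2 j h]
      fin_cases j
      · exact hz4
      · exact hz5
      · exact hz6
  have hdfc := udfc_I z hz hpos T q hq
  rw [← Finset.card_map ind] at hdfc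
  have hM : Mod (EE f g) (z 1) (z 2) (T.map ind) F ε := by
    refine mod_of f g (e := z 0) (p := z 1) (l := z 2) (r := r) (hpos 0) (hpos 1) ?_ hf1 hfl hgp
      (hfa 0) (hfa 1) (hfa 2) hTh hMat ?_ ?_ ?_ ?_ (hz2.trans_le hδε)
      ?_ (fun a ha => hF' a (Finset.mem_insert_of_mem ha)) hΓ hc hgood hdfc
      (fun E hE => seven_I E _ _ _ hE T _ _)
      (far_I z hz) ?_ fun b hb hs => S2_of D hf1 hgp hfv hfX (Sum.inr 1) 0 1 one_ne_zero (by
        simp) hb hs
    · intro i
      by_cases h : i ∈ T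
      · rw [hr1 i h]
        exact_mod_cast hq i
      · rw [hr2 i h]
        exact hpos _
    · intro h
      exact hLI (strong_I z hz T (strong_ne T h))
    · rw [hfp, Real.exp_log (hpos 3)]
      have h := hz.comp (![1, 3] : Fin 2 → Fin 7) (by decide)
      convert h using 1
      ext i
      fin_cases i <;> rfl
    · intro i hi
      obtain ⟨j, hj, rfl⟩ := Finset.mem_map.mp hi
      exact ⟨q j, by rw [fiveR_ind, hr1 j hj]⟩
    · intro i hi
      rcases cases_five i with rfl | rfl | ⟨j, rfl⟩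
      · apply transcendental_real
        have h := transcendental_add h01
        have h2 : ((fiveR (z 0) (z 1) r 0 : ℝ) : ℂ) = (z 1 : ℂ) + (z 0 : ℂ) :=
          Complex.ofReal_add _ _
        rw [h2]
        exact h
      · apply transcendental_real
        have h := transcendental_mul h01
        have h2 : ((fiveR (z 0) (z 1) r 1 : ℝ) : ℂ) = (z 1 : ℂ) * (z 0 : ℂ) :=
          Complex.ofReal_mul _ _
        rw [h2]
        exact h
      · have hj : j ∉ T := fun h => hi (Finset.mem_map_of_mem ind h)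
        rw [fiveR_ind, hr2 j hj]
        exact transcendental_real (hz.transcendental (gI j))
    · intro i
      have hn := hnear₃ (z 0) (z 1) (hz0.trans_le hd3) (hz1.trans_le hd3)
      rcases cases_five i with rfl | rfl | ⟨j, rfl⟩
      · exact hn.1
      · exact hn.2
      · rw [fiveR_ind, fiveR_ind]
        exact (hrt j).trans_le hδε
    · rw [hfp, Real.exp_log (hpos 3)]
      have h := hz.comp (![0, 3] : Fin 2 → Fin 7) (by decide)
      convert h using 1
      ext i
      fin_cases i <;> rfl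
  rw [hzp] at hM
  exact ⟨EE f g, z 2, hM⟩

end Pool.Agent.Pat7
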