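import Pool.Agent.Pat7.TI

/-!
# Pat7: the patterns with a rational sum

As `Pool/Agent/Pat6/ModelUII.lean`, with `z 0 = A - π`.
-/

set_option autoImplicit false

namespace Pool.Agent.Pat7

open Pool.Agent.Pat5 Pool.Agent.Pat6

private theorem f_mul (f : ℝ ≃ₗ[ℚ] ℝ) (A : ℚ) (e l : ℝ) :
    f ((A - e) * l) = A * f l - f (e * l) := by
  have h : ((A : ℝ) - e) * l = A • l - e * l := by
    rw [Rat.smul_def]
    ring
  rw [h, map_sub, map_smul, Rat.smul_def]

private theorem f_sub (f : ℝ ≃ₗ[ℚ] ℝ) (A : ℚ) (e : ℝ) : f (A - e) = A * f 1 - f e := by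
  have h := f_mul f A e 1
  rwa [mul_one, mul_one] at h

private theorem tr_of {x : ℝ} (h : Transcendental ℚ (x : ℂ)) : Transcendental ℚ x :=
  (transcendental_algebraMap_iff (algebraMap ℝ ℂ).injective).1 h

/-- The choice of the numbers. -/
private theorem setup (F : Finset ℂ) (ε δ₁ : ℝ) (hε : 0 < ε) (hδ₁ : 0 < δ₁) :
    ∃ (δ : ℝ) (A : ℚ) (z : Fin 4 → ℝ),
    0 < δ ∧ δ ≤ ε ∧ (|Real.log (z 0) - 1| < δ₁ ∧
      |A * Real.log (z 0) - Real.log (z 2) - Real.pi| < δ₁) ∧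
    (Gen1 (insert (Real.pi : ℂ) F) 0 z ∧ Transcendental ℚ (z 0 : ℂ)) ∧ (∀ i, 0 < z i) ∧
    A - z 0 = Real.pi ∧
    |(A - z 0) * z 0 - Real.pi * Real.exp 1| < ε ∧
    (∀ c : ℝ, |c - Real.pi ^ Real.exp 1| < δ →
      |Real.exp (A * Real.log (A - z 0)) / c - Real.pi ^ Real.pi| < ε) ∧
    (∀ d : ℝ, |d - Real.pi ^ Real.pi| < δ →
      |Real.exp (A * Real.log (A - z 0)) / d - Real.pi ^ Real.exp 1| < ε) ∧
    |A - (Real.pi + Real.exp 1)| < δ ∧ |z 0 - Real.exp 1| < δ ∧ |z 1 - Real.log Real.pi| < δ ∧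
    |z 2 - Real.exp 1 ^ Real.exp 1| < δ ∧ |z 3 - Real.pi ^ Real.exp 1| < δ ∧
    (∀ c : ℝ, |c - Real.pi ^ Real.exp 1| < δ → 1 < c) ∧
    ∀ d : ℝ, |d - Real.pi ^ Real.pi| < δ → 1 < d := by
  obtain ⟨t1, -, t3, t4, t5, t6⟩ := one_lt_targets
  obtain ⟨δ₀, h1, h2, -, h4⟩ := near_II ε hε
  obtain ⟨δ₂, hδ₂, hlog⟩ := log_near δ₁ hδ₁
  obtain ⟨δ₃, hδ₃, hn⟩ := near_II2 δ₁ hδ₁
  obtain ⟨δ, hδ0, hδ⟩ : ∃ δ : ℝ, 0 < δ ∧ δ ≤ δ₀ ∧ δ ≤ δ₂ ∧ δ ≤ δ₃ ∧ δ ≤ Real.exp 1 - 1 ∧
      δ ≤ Real.log Real.pi - 1 ∧ δ ≤ Real.pi ^ Real.exp 1 - 1 ∧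
      δ ≤ Real.exp 1 ^ Real.exp 1 - 1 ∧ δ ≤ Real.pi ^ Real.pi - 1 := by
    refine ⟨min δ₀ (min δ₂ (min δ₃ (min (Real.exp 1 - 1) (min (Real.log Real.pi - 1)
      (min (Real.pi ^ Real.exp 1 - 1) (min (Real.exp 1 ^ Real.exp 1 - 1)
        (Real.pi ^ Real.pi - 1))))))), ?_, ?_, ?_, ?_, ?_, ?_, ?_, ?_, ?_⟩
    · simp only [lt_min_iff]
      refine ⟨h1, hδ₂, hδ₃, ?_, ?_, ?_, ?_, ?_⟩ <;> linarith
    all_goals simp
  obtain ⟨d1, d0, d00, d2, d3, d4, d5, d6⟩ := hδ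
  obtain ⟨A, hA1, hA2⟩ := exists_rat_btwn (show Real.pi + Real.exp 1 - δ <
    Real.pi + Real.exp 1 + δ by linarith)
  have hmem : ((A - Real.pi : ℝ) : ℂ) ∈ KF (insert (Real.pi : ℂ) F) := by
    rw [Complex.ofReal_sub, Complex.ofReal_ratCast]
    have h := (KF (insert (Real.pi : ℂ) F)).algebraMap_mem A
    rw [eq_ratCast] at h
    exact sub_mem h (pi_mem_KF F)
  obtain ⟨z, hz0, hz, hzt⟩ := exists_gen1 (insert (Real.pi : ℂ) F) (0 : Fin 4) hmem
    ![Real.exp 1, Real.log Real.pi, Real.exp 1 ^ Real.exp 1, Real.pi ^ Real.exp 1] δ hδ0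
  have hA : |(A : ℝ) - (Real.pi + Real.exp 1)| < δ := by
    rw [abs_lt]
    constructor <;> linarith
  have z0 : |z 0 - Real.exp 1| < δ := by
    rw [hz0]
    have h : (A : ℝ) - Real.pi - Real.exp 1 = A - (Real.pi + Real.exp 1) := by ring
    rw [h]
    exact hA
  have z1 : |z 1 - Real.log Real.pi| < δ := hzt 1 (by decide)
  have z2 : |z 2 - Real.exp 1 ^ Real.exp 1| < δ := hzt 2 (by decide)
  have z3 : |z 3 - Real.pi ^ Real.exp 1| < δ := hzt 3 (by decide)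
  have hk : Transcendental ℚ (z 0 : ℂ) := by
    rw [hz0]
    exact tr_II A
  have hp : (A : ℝ) - z 0 = Real.pi := by
    rw [hz0]
    ring
  obtain ⟨n1, n2, n3, n4, n5⟩ := h4 A (z 0) (hA.trans_le d1) (z0.trans_le d1)
  refine ⟨δ, A, z, hδ0, d1.trans h2, ⟨hlog _ (z0.trans_le d0), hn A (z 0) (z 2) (hA.trans_le d00)
    (z0.trans_le d00) (z2.trans_le d00)⟩, ⟨hz, hk⟩, ?_, hp, n3, fun c hc => n4 c (hc.trans_le d1),
    fun d hd => n5 d (hd.trans_le d1), hA, z0, z1, z2, z3, ?_, ?_⟩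
  · rw [abs_lt] at z0 z1 z2 z3
    intro i
    fin_cases i
    · show 0 < z 0
      linarith
    · show 0 < z 1
      linarith
    · show 0 < z 2
      linarith
    · show 0 < z 3
      linarith
  · intro c hc
    rw [abs_lt] at hc
    linarith
  · intro d hd
    rw [abs_lt] at hd
    linarith

/-- Closeness at `1` and `π`. -/
private theorem near_b {f : ℝ ≃ₗ[ℚ] ℝ} {z : Fin 4 → ℝ} {A : ℚ} {δ₁ : ℝ}
    (hp : A - z 0 = Real.pi) (hf1 : f 1 = Real.log (z 0)) (hf0 : f (z 0) = Real.log (z 2))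
    (h1 : |Real.log (z 0) - 1| < δ₁)
    (h2 : |A * Real.log (z 0) - Real.log (z 2) - Real.pi| < δ₁) :
    ∀ i, |f (![1, Real.pi] i) - ![1, Real.pi] i| < δ₁ := by
  intro i
  fin_cases i
  · show |f 1 - 1| < δ₁
    rw [hf1]
    exact h1
  · show |f Real.pi - Real.pi| < δ₁
    have h3 : f Real.pi = A * Real.log (z 0) - Real.log (z 2) := by
      rw [← hp, f_sub, hf1, hf0]
    rw [h3]
    exact h2

section

variable {z : Fin 4 → ℝ} {A : ℚ}

private theorem hN_of (hz : AlgebraicIndependent ℚ (fun i => (z i : ℂ))) (hpos : ∀ i, 0 < z i)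
    (f : ℝ ≃ₗ[ℚ] ℝ) (hf1 : f 1 = Real.log (z 0)) (hf0 : f (z 0) = Real.log (z 2)) :
    AlgebraicIndependent ℚ ![((A - z 0 : ℝ) : ℂ), ((Real.exp (f (A - z 0)) : ℝ) : ℂ)] := by
  refine ai_II_3 A (D := z 2) (hpos 0) ?_ ?_
  · have h := hz.comp ![0, 2] (by
      intro a b hab
      fin_cases a <;> fin_cases b <;> simp_all)
    have h2 : (fun i => (z i : ℂ)) ∘ ![0, 2] = ![(z 0 : ℂ), (z 2 : ℂ)] := by
      funext i
      fin_cases i <;> rfl
    rwa [h2] at h
  · rw [f_sub, hf1, hf0, Real.exp_sub, Real.exp_log (hpos 2),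
      div_mul_cancel₀ _ (hpos 2).ne']

private theorem hN2_of (hz : AlgebraicIndependent ℚ (fun i => (z i : ℂ))) (hpos : ∀ i, 0 < z i)
    (f : ℝ ≃ₗ[ℚ] ℝ) (hf1 : f 1 = Real.log (z 0)) (hf0 : f (z 0) = Real.log (z 2)) :
    AlgebraicIndependent ℚ ![(z 0 : ℂ), ((Real.exp (f (A - z 0)) : ℝ) : ℂ)] := by
  refine ai_of_alg (hN_of (A := A) hz hpos f hf1 hf0) fun i => ?_
  fin_cases i
  · have h0 : (z 0 : ℂ) ∈ IntermediateField.adjoin ℚ
        (Set.range ![(z 0 : ℂ), ((Real.exp (f (A - z 0)) : ℝ) : ℂ)]) :=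
      IntermediateField.subset_adjoin _ _ ⟨0, rfl⟩
    have h1 : ((A - z 0 : ℝ) : ℂ) ∈ IntermediateField.adjoin ℚ
        (Set.range ![(z 0 : ℂ), ((Real.exp (f (A - z 0)) : ℝ) : ℂ)]) := by
      rw [Complex.ofReal_sub, Complex.ofReal_ratCast]
      exact sub_mem (SubfieldClass.ratCast_mem _ A) h0
    exact isAlgebraic_algebraMap (⟨_, h1⟩ : IntermediateField.adjoin ℚ
      (Set.range ![(z 0 : ℂ), ((Real.exp (f (A - z 0)) : ℝ) : ℂ)]))
  · exact isAlgebraic_algebraMap (⟨_, IntermediateField.subset_adjoin _ _ ⟨1, rfl⟩⟩ :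
      IntermediateField.adjoin ℚ
        (Set.range ![(z 0 : ℂ), ((Real.exp (f (A - z 0)) : ℝ) : ℂ)]))

private theorem transc_quot {q : ℚ} (hq : q ≠ 0) {x : ℝ} (hx : Transcendental ℚ x) :
    Transcendental ℚ (x / q) := by
  intro h
  apply hx
  have h1 : x = x / q * (q : ℝ) := by
    rw [div_mul_cancel₀]
    exact_mod_cast hq
  rw [h1]
  exact h.mul (isAlgebraic_algebraMap (A := ℝ) q)

private theorem tr_p (hz : AlgebraicIndependent ℚ (fun i => (z i : ℂ))) :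
    Transcendental ℚ ((A - z 0 : ℝ) : ℂ) := by
  intro h
  apply hz.transcendental 0
  have h1 : ((z 0 : ℝ) : ℂ) = algebraMap ℚ ℂ A - ((A - z 0 : ℝ) : ℂ) := by
    rw [eq_ratCast]
    push_cast
    ring
  rw [h1]
  exact (isAlgebraic_algebraMap A).sub h

private theorem tr_pe (hz : AlgebraicIndependent ℚ (fun i => (z i : ℂ))) :
    Transcendental ℚ ((A - z 0) * z 0) := by
  refine tr_of ?_
  have h := transc_II A (hz.transcendental 0)
  push_cast
  exact h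

private theorem tr_pow (hz : AlgebraicIndependent ℚ (fun i => (z i : ℂ))) (h0 : 0 < z 0)
    (hA : 0 < A - z 0) : Transcendental ℚ (Real.exp (A * Real.log (A - z 0))) := by
  refine transc_II_pow A hA (tr_p hz) ?_
  rintro rfl
  rw [Rat.cast_zero, zero_sub] at hA
  linarith

/-- The third number in the first case. -/
private theorem tr_last (hz : AlgebraicIndependent ℚ (fun i => (z i : ℂ)))
    (hpos : ∀ i, 0 < z i) (hA : 0 < A - z 0) :
    Transcendental ℚ (Real.exp (A * Real.log (A - z 0)) / z 3) := by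
  refine tr_of fun h => ?_
  have h1 : AlgebraicIndependent ℚ (Sum.elim (fun i : Fin 1 => (((![z 0] : Fin 1 → ℝ) i : ℝ) : ℂ))
      (fun _ : Unit => (z 3 : ℂ))) := by
    have h2 := hz.comp (Sum.elim (fun _ : Fin 1 => (0 : Fin 4)) (fun _ : Unit => 3)) (by
      rintro (a | a) (b | b) hab
      · rw [Subsingleton.elim a b]
      · exact absurd (show (0 : Fin 4) = 3 from hab) (by decide)
      · exact absurd (show (3 : Fin 4) = 0 from hab) (by decide)
      · rfl)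
    have h3 : (fun i => (z i : ℂ)) ∘ (Sum.elim (fun _ : Fin 1 => (0 : Fin 4))
        (fun _ : Unit => 3)) = Sum.elim (fun i : Fin 1 => (((![z 0] : Fin 1 → ℝ) i : ℝ) : ℂ))
          (fun _ : Unit => (z 3 : ℂ)) := by
      funext i
      rcases i with i | i
      · fin_cases i
        rfl
      · rfl
    rwa [h3] at h2
  have h2 := (ai_Kc _ h1).transcendental ()
  apply h2
  have h3 : ((z 0 : ℝ) : ℂ) ∈ Kc ![z 0] := coe_mem_Kc ![z 0] 0
  have h4 : Complex.exp ((Real.log (A - z 0) : ℝ) : ℂ) ∈ Kc ![z 0] := by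
    rw [← Complex.ofReal_exp, Real.exp_log hA]
    push_cast
    exact sub_mem (SubfieldClass.ratCast_mem _ A) h3
  have h5 := exp_rat_mem_Kc h4 A
  have h6 : ((Real.exp (A * Real.log (A - z 0)) / z 3 : ℝ) : ℂ) ∈ Kc ![z 0] :=
    Qbar_le_Kc _ (mem_Qbar.2 h)
  have h7 : ((z 3 : ℝ) : ℂ) = Complex.exp (A * ((Real.log (A - z 0) : ℝ) : ℂ)) /
      ((Real.exp (A * Real.log (A - z 0)) / z 3 : ℝ) : ℂ) := by
    have h8 : (z 3 : ℂ) ≠ 0 := by exact_mod_cast (hpos 3).ne'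
    have h9 : ((Real.exp (A * Real.log (A - z 0)) / z 3 : ℝ) : ℂ) =
        Complex.exp (A * ((Real.log (A - z 0) : ℝ) : ℂ)) / z 3 := by
      push_cast
      rfl
    rw [h9]
    field_simp
  have h10 : ((z 3 : ℝ) : ℂ) ∈ Kc ![z 0] := by
    rw [h7]
    exact div_mem h5 h6
  exact isAlgebraic_algebraMap (⟨_, h10⟩ : Kc ![z 0])

end

theorem modelV_II_0 (F : Finset ℂ) (ε : ℝ) (hε : 0 < ε) : ModelV {0} F ε := by
  obtain ⟨δ₁, hδ₁, hcore⟩ := core5 (insert (Real.pi : ℂ) F) ε hε ![1, Real.pi] li_pi2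
  obtain ⟨δ, A, z, hδ0, hδε, ⟨hb1, hb2⟩, ⟨hzG, hk⟩, hpos, hpA, n2, n3, -, a1, a2, a3, a4, a5, -, -⟩ :=
    setup F ε δ₁ hε hδ₁
  have hz := hzG.ai_Q hk
  have hA : 0 < A - z 0 := by
    rw [hpA]
    exact Real.pi_pos
  obtain ⟨f, g, hf1, hg, -, hX, hT, hL, hΓ, hc', hgood, hMat, hF⟩ := hcore hpA
    (dat_II_0 z A hz hpos hA) (Or.inl (strong_II_0 z A hz)) hzG hk (dom_II_0 z A hz hpA _ _)
  have x0 : f (z 1) = Real.log (A - z 0) := hX 0
  have x1 : f (z 0) = Real.log (z 2) := hX 1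
  have x2 : f (z 0 * z 1) = Real.log (z 3) := hX 2
  have hF' := hF (near_b hpA hf1 x1 hb1 hb2)
  have hM : Mod (EE f g) (A - z 0) (z 1) {0} F ε := by
    refine mod_of f g (e := z 0) (p := A - z 0) (l := z 1)
      (r := ![z 3, z 2, Real.exp (A * Real.log (A - z 0)) / z 3]) (hpos 0) hA ?_ hf1 x0 hg x2 x1
      ?_ hT hMat (fun _ => hL (strong_II_0 z A hz)) (hN_of hz hpos f hf1 x1) ?_ ?_
      (a3.trans_le hδε) ?_ (fun a ha => hF' a (Finset.mem_insert_of_mem ha)) hΓ hc' hgood (udfc_II_0 z A hz hpos hA)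
      (fun E hE => seven_II_0 E A _ _ hE _ _) (far_II z A hz) (hN2_of hz hpos f hf1 x1)
      fun b hb hs => S2_of (dat_II_0 z A hz hpos hA) hf1 hg (fun i => i.elim0) hX 1 A (-1)
        (by norm_num) (by simp [sub_eq_add_neg]) hb hs
    · intro i
      fin_cases i
      · exact hpos 3
      · exact hpos 2
      · exact div_pos (Real.exp_pos _) (hpos 3)
    · rw [f_mul, x0, x2]
      show _ = Real.log (Real.exp (A * Real.log (A - z 0)) / z 3)
      rw [Real.log_div (Real.exp_pos _).ne' (hpos 3).ne', Real.log_exp]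
    · intro i hi
      rw [Finset.mem_singleton] at hi
      subst hi
      refine ⟨A, ?_⟩
      show (A : ℝ) - z 0 + z 0 = A
      ring
    · intro i hi
      fin_cases i
      · exact absurd (Finset.mem_singleton_self _) hi
      · exact tr_pe hz
      · exact tr_of (hz.transcendental 3)
      · exact tr_of (hz.transcendental 2)
      · exact tr_last hz hpos hA
    · intro i
      fin_cases i
      · show |(A : ℝ) - z 0 + z 0 - (Real.pi + Real.exp 1)| < ε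
        rw [sub_add_cancel]
        exact a1.trans_le hδε
      · exact n2
      · exact a5.trans_le hδε
      · exact a4.trans_le hδε
      · exact n3 _ a5
  rw [hpA] at hM
  exact ⟨EE f g, z 1, hM⟩

theorem modelV_II_2 (F : Finset ℂ) (ε : ℝ) (hε : 0 < ε) : ModelV {0, 2} F ε := by
  obtain ⟨δ₁, hδ₁, hcore⟩ := core5 (insert (Real.pi : ℂ) F) ε hε ![1, Real.pi] li_pi2
  obtain ⟨δ, A, z, hδ0, hδε, ⟨hb1, hb2⟩, ⟨hzG, hk⟩, hpos, hpA, n2, n3, -, a1, a2, a3, a4, -, a6, -⟩ :=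
    setup F ε δ₁ hε hδ₁
  have hz := hzG.ai_Q hk
  have hA : 0 < A - z 0 := by
    rw [hpA]
    exact Real.pi_pos
  obtain ⟨c, hc1, hc2⟩ := exists_rat_btwn (show Real.pi ^ Real.exp 1 - δ <
    Real.pi ^ Real.exp 1 + δ by linarith)
  have hcδ : |(c : ℝ) - Real.pi ^ Real.exp 1| < δ := by
    rw [abs_lt]
    constructor <;> linarith
  have hc : 1 < c := by exact_mod_cast a6 c hcδ
  have hc0 : (0 : ℝ) < c := by exact_mod_cast zero_lt_one.trans hc
  obtain ⟨f, g, hf1, hg, hv, hX, hT, hL, hΓ, hc', hgood, hMat, hF⟩ :=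
    hcore hpA (dat_II_2 z A hz hpos hA c hc) (Or.inl (strong_II_2 z A hz)) hzG hk
      (dom_II_2 z A hz hpA _ _)
  have x0 : f (z 1) = Real.log (A - z 0) := hX 0
  have x1 : f (z 0) = Real.log (z 2) := hX 1
  have x2 : f (z 0 * z 1) = Real.log c := hv 0
  have hF' := hF (near_b hpA hf1 x1 hb1 hb2)
  have hM : Mod (EE f g) (A - z 0) (z 1) {0, 2} F ε := by
    refine mod_of f g (e := z 0) (p := A - z 0) (l := z 1)
      (r := ![(c : ℝ), z 2, Real.exp (A * Real.log (A - z 0)) / c]) (hpos 0) hA ?_ hf1 x0 hg x2 x1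
      ?_ hT hMat (fun _ => hL (strong_II_2 z A hz)) (hN_of hz hpos f hf1 x1) ?_ ?_
      (a3.trans_le hδε) ?_ (fun a ha => hF' a (Finset.mem_insert_of_mem ha)) hΓ hc' hgood (udfc_II_2 z A hz hpos hA c hc)
      (fun E hE => seven_II_2 E A _ _ hE _ _) (far_II z A hz) (hN2_of hz hpos f hf1 x1)
      fun b hb hs => S2_of (dat_II_2 z A hz hpos hA c hc) hf1 hg hv hX 1 A (-1)
        (by norm_num) (by simp [sub_eq_add_neg]) hb hs
    · intro i
      fin_cases i
      · exact hc0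
      · exact hpos 2
      · exact div_pos (Real.exp_pos _) hc0
    · rw [f_mul, x0, x2]
      show _ = Real.log (Real.exp (A * Real.log (A - z 0)) / c)
      rw [Real.log_div (Real.exp_pos _).ne' hc0.ne', Real.log_exp]
    · intro i hi
      rw [Finset.mem_insert, Finset.mem_singleton] at hi
      rcases hi with rfl | rfl
      · refine ⟨A, ?_⟩
        show (A : ℝ) - z 0 + z 0 = A
        ring
      · exact ⟨c, rfl⟩
    · intro i hi
      fin_cases i
      · exact absurd (by decide) hi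
      · exact tr_pe hz
      · exact absurd (by decide) hi
      · exact tr_of (hz.transcendental 2)
      · exact transc_quot (zero_lt_one.trans hc).ne' (tr_pow hz (hpos 0) hA)
    · intro i
      fin_cases i
      · show |(A : ℝ) - z 0 + z 0 - (Real.pi + Real.exp 1)| < ε
        rw [sub_add_cancel]
        exact a1.trans_le hδε
      · exact n2
      · exact hcδ.trans_le hδε
      · exact a4.trans_le hδε
      · exact n3 _ hcδ
  rw [hpA] at hM
  exact ⟨EE f g, z 1, hM⟩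

theorem modelV_II_4 (F : Finset ℂ) (ε : ℝ) (hε : 0 < ε) : ModelV {0, 4} F ε := by
  obtain ⟨δ₁, hδ₁, hcore⟩ := core5 (insert (Real.pi : ℂ) F) ε hε ![1, Real.pi] li_pi2
  obtain ⟨δ, A, z, hδ0, hδε, ⟨hb1, hb2⟩, ⟨hzG, hk⟩, hpos, hpA, n2, -, n4, a1, a2, a3, a4, -, -, a7⟩ :=
    setup F ε δ₁ hε hδ₁
  have hz := hzG.ai_Q hk
  have hA : 0 < A - z 0 := by
    rw [hpA]
    exact Real.pi_pos
  obtain ⟨c, hc1, hc2⟩ := exists_rat_btwn (show Real.pi ^ Real.pi - δ <
    Real.pi ^ Real.pi + δ by linarith)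
  have hcδ : |(c : ℝ) - Real.pi ^ Real.pi| < δ := by
    rw [abs_lt]
    constructor <;> linarith
  have hc : 1 < c := by exact_mod_cast a7 c hcδ
  have hc0 : (0 : ℝ) < c := by exact_mod_cast zero_lt_one.trans hc
  obtain ⟨f, g, hf1, hg, hv, hX, hT, hL, hΓ, hc', hgood, hMat, hF⟩ :=
    hcore hpA (dat_II_4 z A hz hpos hA c hc) (Or.inl (strong_II_4 z A hz)) hzG hk
      (dom_II_4 z A hz hpA _ _)
  have x0 : f (z 1) = Real.log (A - z 0) := hX 0
  have x1 : f (z 0) = Real.log (z 2) := hX 1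
  have x2 : f ((A - z 0) * z 1) = Real.log c := hv 0
  have hF' := hF (near_b hpA hf1 x1 hb1 hb2)
  have hM : Mod (EE f g) (A - z 0) (z 1) {0, 4} F ε := by
    refine mod_of f g (e := z 0) (p := A - z 0) (l := z 1)
      (r := ![Real.exp (A * Real.log (A - z 0)) / c, z 2, (c : ℝ)]) (hpos 0) hA ?_ hf1 x0 hg ?_ x1
      x2 hT hMat (fun _ => hL (strong_II_4 z A hz)) (hN_of hz hpos f hf1 x1) ?_ ?_
      (a3.trans_le hδε) ?_ (fun a ha => hF' a (Finset.mem_insert_of_mem ha)) hΓ hc' hgood (udfc_II_4 z A hz hpos hA c hc)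
      (fun E hE => seven_II_4 E A _ _ hE _ _) (far_II z A hz) (hN2_of hz hpos f hf1 x1)
      fun b hb hs => S2_of (dat_II_4 z A hz hpos hA c hc) hf1 hg hv hX 1 A (-1)
        (by norm_num) (by simp [sub_eq_add_neg]) hb hs
    · intro i
      fin_cases i
      · exact div_pos (Real.exp_pos _) hc0
      · exact hpos 2
      · exact hc0
    · show _ = Real.log (Real.exp (A * Real.log (A - z 0)) / c)
      rw [Real.log_div (Real.exp_pos _).ne' hc0.ne', Real.log_exp]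
      have h1 := f_mul f A (z 0) (z 1)
      rw [x2, x0] at h1
      linarith
    · intro i hi
      rw [Finset.mem_insert, Finset.mem_singleton] at hi
      rcases hi with rfl | rfl
      · refine ⟨A, ?_⟩
        show (A : ℝ) - z 0 + z 0 = A
        ring
      · exact ⟨c, rfl⟩
    · intro i hi
      fin_cases i
      · exact absurd (by decide) hi
      · exact tr_pe hz
      · exact transc_quot (zero_lt_one.trans hc).ne' (tr_pow hz (hpos 0) hA)
      · exact tr_of (hz.transcendental 2)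
      · exact absurd (by decide) hi
    · intro i
      fin_cases i
      · show |(A : ℝ) - z 0 + z 0 - (Real.pi + Real.exp 1)| < ε
        rw [sub_add_cancel]
        exact a1.trans_le hδε
      · exact n2
      · exact n4 _ hcδ
      · exact a4.trans_le hδε
      · exact hcδ.trans_le hδε
  rw [hpA] at hM
  exact ⟨EE f g, z 1, hM⟩

end Pool.Agent.Pat7
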